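import Pool.Agent.Q291.MK.Stm4
import Pool.Agent.Q291.MK.Base

/-!
# Job PROP of project MK: properties of every scaling limit
-/

namespace Pool.Agent.Q224.MK

open Filter Topology Pool.Agent.Q291.MK Pool.Agent.Q291.MK.BetaAux Pool.Agent.Q291.MK.LimAux

namespace PropAux

/-- The means along the orbit. -/
theorem means {C3 C8 M D Q : ℝ} (hD : 0 < D) (hM : 10 + 2 * D ≤ M)
    (hQ : M ^ 2 + M ≤ Q) (horb : ∀ m : ℝ, 0 < m → ∀ n : ℕ,
  (M ≤ mean (R^[n] (pois m)) → Cls C3 C8 (R^[n] (pois m)) ∧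
    1 - D / mean (R^[n] (pois m)) ≤ W (R^[n] (pois m)) ∧
    ∀ j : ℕ, j ≤ n → |mean (R^[j] (pois m)) - mean (R^[n + 1] (pois m)) - 2 * (n + 1 - j)| ≤
      2 + D * (1 + Real.log (n + 1 - j))) ∧
  (mean (R^[n] (pois m)) < M → q2 (R^[n] (pois m)) ≤ Q)) {w Mw : ℝ} (hw0 : 0 < w) (hMMw : M ≤ Mw)
    (N : ℕ) {m : ℝ} (hm : 0 < m) (hmw : 3 * w ≤ mean (R^[N] (pois m))) (hMw : mean (R^[N] (pois m)) ≤ Mw) :
    ∀ j : ℕ, j ≤ N → |mean (R^[N - j] (pois m)) - 2 * j| ≤
      (Mw + 2 * (2 * Q * M / (3 * w ^ 2)) + 2 + D) * (1 + Real.log (j + 1)) := by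
  have hcr := bCRUDE
  have hrb := bRB
  have hpm := pois_AM bPOIS hm
  obtain ⟨sAM, s0, smono, -, sW, -, -, -⟩ := bST (pois m) hpm.1 hpm.2
  have hM0 : 0 < M := by linarith
  have hQ0 : 0 < Q := by nlinarith
  have hanti : Antitone fun n => mean (R^[n] (pois m)) := antitone_nat_of_succ_le smono
  obtain ⟨N1, hN1d⟩ : ∃ N1, N1 = 2 * Q * M / (3 * w ^ 2) := ⟨_, rfl⟩
  rw [← hN1d]
  have hN1 : 0 ≤ N1 := by rw [hN1d]; positivity
  intro j hj
  have hlog0 : 0 ≤ Real.log ((j:ℝ) + 1) := Real.log_nonneg (by have : (0:ℝ) ≤ j := Nat.cast_nonneg j; linarith)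
  have hfin : ∀ X : ℝ, X ≤ Mw + 2 * N1 + 2 + D * (1 + Real.log ((j:ℝ) + 1)) →
      X ≤ (Mw + 2 * N1 + 2 + D) * (1 + Real.log ((j:ℝ) + 1)) := by
    intro X hX
    refine hX.trans ?_
    have : 0 ≤ (Mw + 2 * N1 + 2) * Real.log ((j:ℝ) + 1) := mul_nonneg (by linarith) hlog0
    linarith [this]
  have hmean0 : ∀ n, 0 ≤ mean (R^[n] (pois m)) := fun n => (hcr _ (sAM n)).1
  by_cases hex : ∃ n, n < N ∧ mean (R^[n] (pois m)) < M
  · classical
    obtain ⟨n1, hn1⟩ : ∃ n1, n1 = Nat.find hex := ⟨_, rfl⟩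
    have hs := Nat.find_spec hex
    rw [← hn1] at hs
    have hmin : ∀ n, n < n1 → M ≤ mean (R^[n] (pois m)) := by
      intro n hn
      by_contra hlt
      push Not at hlt
      rw [hn1] at hn
      exact Nat.find_min hex hn ⟨by omega, hlt⟩
    -- number of steps below M
    have hstep : ∀ k : ℕ, n1 + k ≤ N →
        mean (R^[n1 + k] (pois m)) ≤ mean (R^[n1] (pois m)) - k * (3 * w ^ 2 / (2 * Q)) := by
      intro k
      induction k with
      | zero => intro _; simp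
      | succ k ih =>
        intro hk
        have ih' := ih (by omega)
        have hlt : mean (R^[n1 + k] (pois m)) < M := (hanti (Nat.le_add_right n1 k)).trans_lt hs.2
        have hq := (horb m hm (n1 + k)).2 hlt
        have hsq := (hcr _ (sAM (n1 + k))).2.2.1
        have hge : 3 * w ≤ mean (R^[n1 + k] (pois m)) := hmw.trans (hanti (by omega))
        have hdec := (hrb _ (sAM (n1 + k))).2.1
        rw [← Function.iterate_succ_apply' (f := R)] at hdec
        have ha0 := a0_le (sAM (n1 + k)).toLaw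
        have h1 : mean (R^[n1 + k] (pois m)) ^ 2 ≤ (1 - (R^[n1 + k] (pois m)) 0) * Q :=
          hsq.trans (mul_le_mul_of_nonneg_left hq (by linarith))
        have h2 : (3 * w) ^ 2 ≤ mean (R^[n1 + k] (pois m)) ^ 2 := pow_le_pow_left₀ (by linarith) hge 2
        have h3 : 9 * w ^ 2 / Q ≤ 1 - (R^[n1 + k] (pois m)) 0 := by
          rw [div_le_iff₀ hQ0]
          nlinarith
        have h4 : 3 * w ^ 2 / (2 * Q) = (9 * w ^ 2 / Q) / 6 := by
          field_simp
          ring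
        have e : n1 + (k + 1) = (n1 + k) + 1 := by ring
        rw [e, h4]
        push_cast
        have e2 : (n1 + k).succ = n1 + k + 1 := rfl
        rw [e2] at hdec
        rw [h4] at ih'
        linarith
    have hNn1 : ((N - n1 : ℕ) : ℝ) ≤ N1 := by
      have h1 := hstep (N - n1) (by omega)
      rw [Nat.add_sub_cancel' (by omega)] at h1
      have h2 : ((N - n1 : ℕ) : ℝ) * (3 * w ^ 2 / (2 * Q)) ≤ M := by linarith [hmean0 N]
      rw [hN1d, le_div_iff₀ (by positivity)]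
      have h3 : ((N - n1 : ℕ) : ℝ) * (3 * w ^ 2) = ((N - n1 : ℕ) : ℝ) * (3 * w ^ 2 / (2 * Q)) * (2 * Q) := by
        field_simp
      rw [h3]
      calc _ ≤ M * (2 * Q) := mul_le_mul_of_nonneg_right h2 (by linarith)
        _ = _ := by ring
    rcases le_or_gt j (N - n1) with hjn | hjn
    · -- below M
      apply hfin
      have h1 : mean (R^[N - j] (pois m)) ≤ mean (R^[n1] (pois m)) := hanti (by omega)
      have h2 : (j:ℝ) ≤ N1 := le_trans (by exact_mod_cast hjn) hNn1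
      have h3 := hmean0 (N - j)
      have h4 : 0 ≤ D * (1 + Real.log ((j:ℝ) + 1)) := by positivity
      have h5 : (0:ℝ) ≤ j := Nat.cast_nonneg j
      rw [abs_le]
      constructor <;> linarith [hs.2]
    · apply hfin
      have hn1pos : 1 ≤ n1 := by omega
      have h1 := ((horb m hm (n1 - 1)).1 (hmin (n1 - 1) (by omega))).2.2 (N - j) (by omega)
      have e1 : n1 - 1 + 1 = n1 := by omega
      rw [e1] at h1
      have e2 : (((n1 - 1 : ℕ) : ℝ) + 1 - ((N - j : ℕ) : ℝ)) = (j:ℝ) - ((N - n1 : ℕ) : ℝ) := by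
        rw [Nat.cast_sub hn1pos, Nat.cast_sub hj, Nat.cast_sub hs.1.le]
        push_cast
        ring
      rw [e2] at h1
      have h6 : (0:ℝ) ≤ ((N - n1 : ℕ) : ℝ) := Nat.cast_nonneg _
      have h7 : (1:ℝ) ≤ (j:ℝ) - ((N - n1 : ℕ) : ℝ) := by
        have : N - n1 + 1 ≤ j := hjn
        have : ((N - n1 : ℕ) : ℝ) + 1 ≤ j := by exact_mod_cast this
        linarith
      have h8 : Real.log ((j:ℝ) - ((N - n1 : ℕ) : ℝ)) ≤ Real.log ((j:ℝ) + 1) :=
        Real.log_le_log (by linarith) (by linarith)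
      have h9 : D * (1 + Real.log ((j:ℝ) - ((N - n1 : ℕ) : ℝ))) ≤ D * (1 + Real.log ((j:ℝ) + 1)) :=
        mul_le_mul_of_nonneg_left (by linarith) hD.le
      have h10 := hmean0 n1
      rw [abs_le] at h1 ⊢
      constructor <;> linarith [hs.2, h1.1, h1.2]
  · push Not at hex
    apply hfin
    have h4 : 0 ≤ D * (1 + Real.log ((j:ℝ) + 1)) := by positivity
    rcases Nat.eq_zero_or_pos j with rfl | hjpos
    · simp only [Nat.sub_zero, Nat.cast_zero, mul_zero, sub_zero, zero_add, Real.log_one] at h4 ⊢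
      rw [abs_of_nonneg (hmean0 N)]
      linarith
    · have h1 := ((horb m hm (N - 1)).1 (hex (N - 1) (by omega))).2.2 (N - j) (by omega)
      have e1 : N - 1 + 1 = N := by omega
      rw [e1] at h1
      have e2 : (((N - 1 : ℕ) : ℝ) + 1 - ((N - j : ℕ) : ℝ)) = (j:ℝ) := by
        rw [Nat.cast_sub (by omega : 1 ≤ N), Nat.cast_sub hj]
        push_cast
        ring
      rw [e2] at h1
      have hj1 : (1:ℝ) ≤ j := by exact_mod_cast hjpos
      have h8 : Real.log (j:ℝ) ≤ Real.log ((j:ℝ) + 1) :=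
        Real.log_le_log (by linarith) (by linarith)
      have h9 : D * (1 + Real.log (j:ℝ)) ≤ D * (1 + Real.log ((j:ℝ) + 1)) :=
        mul_le_mul_of_nonneg_left (by linarith) hD.le
      have h10 := hmean0 N
      rw [abs_le] at h1 ⊢
      constructor <;> linarith [h1.1, h1.2]

/-- All bounds along one orbit normalised at level `N`. -/
theorem core {w M1 : ℝ} (hw0 : 0 < w) : ∃ C : ℝ, 0 < C ∧ ∀ (N : ℕ) (x : ℝ), 0 < x →
    3 * w ≤ mean (R^[N] (pois x)) → mean (R^[N] (pois x)) ≤ M1 →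
    |x / 2 - N| ≤ C * (1 + Real.log (N + 1)) ∧
    (∀ j : ℕ, j ≤ N → |mean (R^[N - j] (pois x)) - 2 * j| ≤ C * (1 + Real.log (j + 1))) ∧
    (∀ j : ℕ, j ≤ N → q2 (R^[N - j] (pois x)) ≤ C * (1 + (j:ℝ)) ^ 2) ∧
    (∀ j : ℕ, j ≤ N → C ≤ j → vr (R^[N - j] (pois x)) ≤ mean (R^[N - j] (pois x))) ∧
    (∀ j : ℕ, q2 (R^[N + j] (pois x)) ≤ C) := by
  have hcr := bCRUDE
  have hp := bPOIS
  have hst := bST
  obtain ⟨C3, C8, M, D, Q, hC3, hC8, hD, hM, hQ, horb⟩ := bORB
  have hM0 : 0 < M := by linarith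
  have hQ0 : 0 < Q := by nlinarith
  obtain ⟨Mw, hMwd⟩ : ∃ Mw, Mw = max M M1 := ⟨_, rfl⟩
  obtain ⟨C1, hC1d⟩ : ∃ C1, C1 = Mw + 2 * (2 * Q * M / (3 * w ^ 2)) + 2 + D := ⟨_, rfl⟩
  have hMMw : M ≤ Mw := by rw [hMwd]; exact le_max_left _ _
  have hN1 : 0 ≤ 2 * Q * M / (3 * w ^ 2) := by positivity
  have hC1M : Mw ≤ C1 := by rw [hC1d]; linarith
  have hC1 : 1 ≤ C1 := by linarith
  obtain ⟨Cq, hCq⟩ : ∃ Cq, Cq = 2 * (2 + C1) ^ 2 + Q := ⟨_, rfl⟩
  have hCq0 : 0 < Cq := by rw [hCq]; positivity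
  refine ⟨C1 + Cq + (M + 1 + C1 ^ 2) + (Mw ^ 2 + Mw), by
    have h1 := sq_nonneg C1
    have h2 := sq_nonneg Mw
    linarith, fun N x hm hlo hhi => ?_⟩
  obtain ⟨C, hC⟩ : ∃ C, C = C1 + Cq + (M + 1 + C1 ^ 2) + (Mw ^ 2 + Mw) := ⟨_, rfl⟩
  rw [← hC]
  have hMw0 : 0 < Mw := by linarith
  have hsq1 : 0 ≤ C1 ^ 2 := sq_nonneg _
  have hsq2 : 0 ≤ Mw ^ 2 := sq_nonneg _
  have hpm := pois_AM hp hm
  obtain ⟨sAM, s0, smono, -, sW, -, -, -⟩ := hst (pois x) hpm.1 hpm.2
  have hμN : mean (R^[N] (pois x)) ≤ Mw := hhi.trans (by rw [hMwd]; exact le_max_right _ _)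
  have hμ := means hD hM hQ horb hw0 hMMw N hm hlo hμN
  rw [← hC1d] at hμ
  have hmean0 : ∀ n, 0 ≤ mean (R^[n] (pois x)) := fun n => (hcr _ (sAM n)).1
  have hlogj : ∀ j : ℕ, 0 ≤ Real.log ((j:ℝ) + 1) := fun j =>
    Real.log_nonneg (by have : (0:ℝ) ≤ j := Nat.cast_nonneg j; linarith)
  have hlogj' : ∀ j : ℕ, Real.log ((j:ℝ) + 1) ≤ j := fun j => by
    have := Real.log_le_sub_one_of_pos (show (0:ℝ) < (j:ℝ) + 1 by positivity)
    linarith
  have hC1C : C1 ≤ C := by rw [hC]; linarith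
  have hq : ∀ j : ℕ, j ≤ N → q2 (R^[N - j] (pois x)) ≤ Cq * (1 + (j:ℝ)) ^ 2 := by
    intro j hj
    have hj0 : (0:ℝ) ≤ j := Nat.cast_nonneg j
    have hb1 : (1:ℝ) ≤ (1 + (j:ℝ)) ^ 2 := one_le_pow₀ (by linarith)
    rcases le_or_gt M (mean (R^[N - j] (pois x))) with h | h
    · have hcls := ((horb _ hm (N - j)).1 h).1
      have h1 := vr_eq (sAM (N - j))
      have h2 := hcls.vr_le
      have h3 := hμ j hj
      rw [abs_le] at h3
      have h4 : mean (R^[N - j] (pois x)) ≤ (2 + C1) * (1 + (j:ℝ)) := by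
        have h5 : C1 * (1 + Real.log ((j:ℝ) + 1)) ≤ C1 * (1 + j) :=
          mul_le_mul_of_nonneg_left (by linarith [hlogj' j]) (by linarith)
        have h6 : (2 + C1) * (1 + (j:ℝ)) = 2 + 2 * j + C1 * (1 + j) := by ring
        linarith [h3.2]
      have h5 : (1:ℝ) ≤ (2 + C1) * (1 + (j:ℝ)) := by nlinarith
      have h7 : mean (R^[N - j] (pois x)) ^ 2 ≤ ((2 + C1) * (1 + (j:ℝ))) ^ 2 :=
        pow_le_pow_left₀ (hmean0 _) h4 2
      have h8 : (2 + C1) * (1 + (j:ℝ)) ≤ ((2 + C1) * (1 + (j:ℝ))) ^ 2 := by nlinarith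
      have h9 : 0 ≤ Q * (1 + (j:ℝ)) ^ 2 := by positivity
      have h10 : Cq * (1 + (j:ℝ)) ^ 2 = 2 * ((2 + C1) * (1 + (j:ℝ))) ^ 2 + Q * (1 + (j:ℝ)) ^ 2 := by
        rw [hCq]; ring
      rw [h10]
      linarith
    · have h1 := (horb _ hm (N - j)).2 h
      have h2 : Q ≤ Q * (1 + (j:ℝ)) ^ 2 := le_mul_of_one_le_right hQ0.le hb1
      have h3 : 0 ≤ 2 * (2 + C1) ^ 2 * (1 + (j:ℝ)) ^ 2 := by positivity
      have h10 : Cq * (1 + (j:ℝ)) ^ 2 = 2 * (2 + C1) ^ 2 * (1 + (j:ℝ)) ^ 2 + Q * (1 + (j:ℝ)) ^ 2 := by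
        rw [hCq]; ring
      rw [h10]
      linarith
  refine ⟨?_, ?_, ?_, ?_, ?_⟩
  · have h1 := hμ N le_rfl
    simp only [Nat.sub_self, Function.iterate_zero, id_eq] at h1
    rw [(hp x hm.le).2.1] at h1
    have h2 : |x / 2 - N| ≤ C1 * (1 + Real.log ((N:ℝ) + 1)) := by
      have e : x - 2 * (N:ℝ) = 2 * (x / 2 - N) := by ring
      rw [e, abs_mul, abs_two] at h1
      have := abs_nonneg (x / 2 - N)
      linarith
    refine h2.trans (mul_le_mul_of_nonneg_right hC1C ?_)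
    linarith [hlogj N]
  · intro j hj
    refine (hμ j hj).trans (mul_le_mul_of_nonneg_right hC1C ?_)
    linarith [hlogj j]
  · intro j hj
    refine (hq j hj).trans (mul_le_mul_of_nonneg_right ?_ (sq_nonneg _))
    rw [hC]; linarith
  · intro j hj hCj
    have h3 := hμ j hj
    rw [abs_le] at h3
    have hlog : C1 * Real.log ((j:ℝ) + 1) ≤ (j:ℝ) + 1 - C1 + C1 * C1 := by
      have hC10 : 0 < C1 := by linarith
      have h5 := Real.log_le_sub_one_of_pos (show (0:ℝ) < ((j:ℝ) + 1) / C1 by positivity)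
      rw [Real.log_div (by positivity) hC10.ne'] at h5
      have h6 : Real.log C1 ≤ C1 := (Real.log_le_self hC10.le)
      have h7 : Real.log ((j:ℝ) + 1) ≤ ((j:ℝ) + 1) / C1 - 1 + C1 := by linarith
      have h8 := mul_le_mul_of_nonneg_left h7 hC10.le
      have h9 : C1 * (((j:ℝ) + 1) / C1 - 1 + C1) = (j:ℝ) + 1 - C1 + C1 * C1 := by
        field_simp
      rw [h9] at h8
      exact h8
    have hge : M ≤ mean (R^[N - j] (pois x)) := by
      have h4 : M + 1 + C1 ^ 2 ≤ j := by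
        refine le_trans ?_ hCj
        rw [hC]; linarith
      have h5 : C1 * (1 + Real.log ((j:ℝ) + 1)) = C1 + C1 * Real.log ((j:ℝ) + 1) := by ring
      have h6 : C1 ^ 2 = C1 * C1 := sq C1
      linarith [h3.1]
    exact ((horb _ hm (N - j)).1 hge).1.vr_le
  · intro j
    have h1 := hst (R^[N] (pois x)) (sAM N) (s0 N)
    have h2 := h1.2.2.2.1 j
    rw [← Function.iterate_add_apply, add_comm j N] at h2
    have h3 := hq 0 (Nat.zero_le N)
    simp only [Nat.sub_zero, Nat.cast_zero, add_zero, one_pow, mul_one] at h3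
    have h4 : mean (R^[N] (pois x)) ^ 2 ≤ Mw ^ 2 := pow_le_pow_left₀ (hmean0 _) hμN 2
    rw [hC]
    linarith

/-! ### Laws without moments -/

theorem law_dirac {a : ℕ → ℝ} (ha : Law a) (h : 1 ≤ a 0) {k : ℕ} (hk : k ≠ 0) : a k = 0 := by
  have h1 : ∑ i ∈ ({0, k} : Finset ℕ), a i ≤ 1 := sum_le_hasSum _ (fun i _ => ha.nn i) ha.one
  rw [Finset.sum_pair (Ne.symm hk)] at h1
  exact le_antisymm (by linarith) (ha.nn k)

theorem lt_of_mean {a : ℕ → ℝ} (ha : Law a) (h : 0 < mean a) : a 0 < 1 := by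
  by_contra hcon
  push Not at hcon
  have h1 : mean a = 0 := by
    unfold mean E
    have : (fun k : ℕ => a k * (k : ℝ)) = fun _ => 0 := by
      funext k
      rcases eq_or_ne k 0 with rfl | hk
      · simp
      · rw [law_dirac ha hcon hk, zero_mul]
    rw [this, tsum_zero]
  linarith

theorem summ_bd {a : ℕ → ℝ} (ha : Law a) {φ : ℕ → ℝ} (h0 : ∀ k, 0 ≤ φ k) (h1 : ∀ k, φ k ≤ 1) :
    Summable fun k => a k * φ k :=
  Summable.of_nonneg_of_le (fun k => mul_nonneg (ha.nn k) (h0 k))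
    (fun k => mul_le_of_le_one_right (ha.nn k) (h1 k)) ha.one.summable

theorem frac_bd (k : ℕ) : 0 ≤ (k : ℝ) / (k + 3) ∧ (k : ℝ) / (k + 3) < 1 := by
  have h : (0 : ℝ) ≤ k := Nat.cast_nonneg k
  refine ⟨by positivity, ?_⟩
  rw [div_lt_one (by positivity)]
  linarith

theorem EI_pos {a : ℕ → ℝ} (ha : Law a) : 0 < E a I := by
  obtain ⟨k, hk⟩ := ha.mass_pos
  exact (summ_bd ha (fun k => (I_pos k).le) I_le_one).tsum_pos
    (fun i => mul_nonneg (ha.nn i) (I_pos i).le) k (mul_pos hk (I_pos k))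

theorem num_bd (k : ℕ) : 0 ≤ I k * ((k : ℝ) / (k + 3)) ∧ I k * ((k : ℝ) / (k + 3)) ≤ I k :=
  ⟨mul_nonneg (I_pos k).le (frac_bd k).1, mul_le_of_le_one_right (I_pos k).le (frac_bd k).2.le⟩

theorem W_lt_one {a : ℕ → ℝ} (ha : Law a) : W a < 1 := by
  unfold W
  rw [div_lt_one (EI_pos ha)]
  obtain ⟨k, hk⟩ := ha.mass_pos
  unfold E
  refine Summable.tsum_lt_tsum (i := k) (fun i => mul_le_mul_of_nonneg_left (num_bd i).2 (ha.nn i)) ?_
    (summ_bd ha (fun i => (num_bd i).1) (fun i => (num_bd i).2.trans (I_le_one i)))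
    (summ_bd ha (fun k => (I_pos k).le) I_le_one)
  refine mul_lt_mul_of_pos_left ?_ hk
  exact mul_lt_of_lt_one_right (I_pos k) (frac_bd k).2

theorem W_pos {a : ℕ → ℝ} (ha : Law a) (h : a 0 < 1) : 0 < W a := by
  unfold W
  refine div_pos ?_ (EI_pos ha)
  have hex : ∃ k, k ≠ 0 ∧ 0 < a k := by
    by_contra hcon
    push Not at hcon
    have h1 : HasSum a (a 0) := hasSum_single 0 fun k hk => le_antisymm (hcon k hk) (ha.nn k)
    have := ha.one.unique h1
    linarith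
  obtain ⟨k, hk0, hk⟩ := hex
  have hkp : (0 : ℝ) < k := by exact_mod_cast Nat.pos_of_ne_zero hk0
  unfold E
  exact (summ_bd ha (fun i => (num_bd i).1) (fun i => (num_bd i).2.trans (I_le_one i))).tsum_pos
    (fun i => mul_nonneg (ha.nn i) (num_bd i).1) k
    (mul_pos hk (mul_pos (I_pos k) (by positivity)))

theorem lt_of_W {a : ℕ → ℝ} (ha : Law a) (h : 0 < W a) : a 0 < 1 := by
  by_contra hcon
  push Not at hcon
  have h1 : E a (fun k => I k * ((k : ℝ) / (k + 3))) = 0 := by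
    unfold E
    have : (fun k : ℕ => a k * (I k * ((k : ℝ) / (k + 3)))) = fun _ => 0 := by
      funext k
      rcases eq_or_ne k 0 with rfl | hk
      · simp
      · rw [law_dirac ha hcon hk, zero_mul]
    rw [this, tsum_zero]
  unfold W at h
  rw [h1, zero_div] at h
  exact lt_irrefl _ h

/-- Everything about one level `k`. -/
structure Lw (ν : ℕ → ℕ) (x : ℕ → ℝ) (b : ℤ → ℕ → ℝ) (k : ℤ) : Prop where
  law : Law (b k)
  sm : Summable fun i => b k i * (i:ℝ) ^ 2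
  mn : Tendsto (fun l : ℕ => mean (R^[((ν l : ℤ) + k).toNat] (pois (x l)))) atTop
    (𝓝 (mean (b k)))
  w : Tendsto (fun l : ℕ => W (R^[((ν l : ℤ) + k).toNat] (pois (x l)))) atTop
    (𝓝 (W (b k)))
  e : ∀ φ : ℕ → ℝ, (∃ C, ∀ k, |φ k| ≤ C) →
    Tendsto (fun l : ℕ => E (R^[((ν l : ℤ) + k).toNat] (pois (x l))) φ) atTop
    (𝓝 (E (b k) φ))

end PropAux

open PropAux

theorem t_PROP : P_PROP := by
  intro m ν x b hm hν hx hlim hconv
  have hp := bPOIS
  have hcr := bCRUDE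
  have hwl := bWL
  have hrb := bRB
  have hc := bCONT
  have hti := bTIGHT
  obtain ⟨C0, hC0, hN⟩ := core (w := m / 6) (M1 := 2 * m) (by linarith)
  have hgood : ∀ᶠ l in atTop, m / 2 < mean (R^[ν l] (pois (x l))) ∧ mean (R^[ν l] (pois (x l))) < 2 * m :=
    (hlim.eventually (lt_mem_nhds (by linarith))).and (hlim.eventually (gt_mem_nhds (by linarith)))
  have hb : ∀ᶠ l in atTop, |x l / 2 - ν l| ≤ C0 * (1 + Real.log (ν l + 1)) ∧
      (∀ j : ℕ, j ≤ ν l → |mean (R^[ν l - j] (pois (x l))) - 2 * j| ≤ C0 * (1 + Real.log (j + 1))) ∧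
      (∀ j : ℕ, j ≤ ν l → q2 (R^[ν l - j] (pois (x l))) ≤ C0 * (1 + (j:ℝ)) ^ 2) ∧
      (∀ j : ℕ, j ≤ ν l → C0 ≤ j → vr (R^[ν l - j] (pois (x l))) ≤ mean (R^[ν l - j] (pois (x l)))) ∧
      (∀ j : ℕ, q2 (R^[ν l + j] (pois (x l))) ≤ C0) := by
    filter_upwards [hgood] with l hl
    exact hN (ν l) (x l) (hx l) (by linarith [hl.1]) hl.2.le
  have hpm : ∀ l, AM (pois (x l)) ∧ pois (x l) 0 < 1 := fun l => pois_AM hp (hx l)
  have hAM : ∀ l n, AM (R^[n] (pois (x l))) := fun l n => am_iter hrb (hpm l).1 n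
  have hev : ∀ k : ℤ, ∀ᶠ l : ℕ in atTop, k.natAbs ≤ ν l := fun k => hν.eventually_ge_atTop _
  -- second moments
  have hq2p : ∀ j : ℕ, ∀ᶠ l in atTop, q2 (R^[((ν l : ℤ) + (j:ℤ)).toNat] (pois (x l))) ≤ C0 := by
    intro j
    filter_upwards [hb] with l hl
    have e : ((ν l : ℤ) + (j:ℤ)).toNat = ν l + j := by omega
    rw [e]
    exact hl.2.2.2.2 j
  have hq : ∀ k : ℤ, ∃ Q : ℝ, ∀ᶠ l in atTop, q2 (R^[((ν l : ℤ) + k).toNat] (pois (x l))) ≤ Q := by
    intro k
    rcases Int.natAbs_eq k with h | h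
    · refine ⟨C0, ?_⟩
      rw [h]
      exact hq2p _
    · refine ⟨C0 * (1 + (k.natAbs:ℝ)) ^ 2, ?_⟩
      filter_upwards [hb, hev k] with l hl hl2
      have e : ((ν l : ℤ) + k).toNat = ν l - k.natAbs := by omega
      rw [e]
      exact hl.2.2.1 k.natAbs hl2
  have hLv : ∀ k : ℤ, Lw ν x b k := by
    intro k
    obtain ⟨Q, hQ⟩ := hq k
    obtain ⟨L, hL⟩ := eventually_atTop.1 hQ
    have hsh : Tendsto (fun l : ℕ => l + L) atTop atTop := tendsto_add_atTop_nat _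
    have h1 := hti (fun l => R^[((ν (l + L) : ℤ) + k).toNat] (pois (x (l + L))))
      (b k) Q (fun l => hAM _ _) (fun l => hL _ (Nat.le_add_left _ _))
      (fun i => (hconv k i).comp hsh)
    have h2 := hc (fun l => R^[((ν l : ℤ) + k).toNat] (pois (x l))) (b k)
      (fun l => (hAM _ _).toLaw) h1.1 (hconv k)
    refine ⟨h1.1, h1.2.1, ?_, h2.2.2.2.2.2.2, h2.2.1⟩
    exact (tendsto_add_atTop_iff_nat L).1 h1.2.2.2
  -- recursion
  have hstep : ∀ (k : ℤ) (l : ℕ), k.natAbs ≤ ν l →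
      R^[((ν l : ℤ) + (k + 1)).toNat] (pois (x l)) =
      R (R^[((ν l : ℤ) + k).toNat] (pois (x l))) := by
    intro k N hN
    have e : ((ν N : ℤ) + (k + 1)).toNat = ((ν N : ℤ) + k).toNat + 1 := by omega
    rw [e, Function.iterate_succ_apply']
  have hrec : ∀ k, b (k + 1) = R (b k) := by
    intro k
    funext i
    have h1 := cont_R hc (fun l => (hAM l (((ν l : ℤ) + k).toNat)).toLaw) (hLv k).law (hconv k) i
    refine tendsto_nhds_unique (hconv (k + 1) i) (h1.congr' ?_)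
    filter_upwards [hev k] with l hl
    rw [hstep k l hl]
  have hmz : mean (b 0) = m := by
    refine tendsto_nhds_unique (hLv 0).mn ?_
    have : (fun l : ℕ => mean (R^[((ν l : ℤ) + 0).toNat] (pois (x l)))) = fun l => mean (R^[ν l] (pois (x l))) := by
      funext l
      have e : ((ν l : ℤ) + 0).toNat = ν l := by omega
      rw [e]
    rw [this]
    exact hlim
  have hmneg : ∀ j : ℕ, |mean (b (-j)) - 2 * j| ≤ C0 * (1 + Real.log (j + 1)) := by
    intro j
    refine le_of_tendsto (((hLv (-j)).mn.sub_const _).abs) ?_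
    filter_upwards [hev (-j), hb] with l hl hl2
    have hj : j ≤ ν l := by simpa using hl
    have e : ((ν l : ℤ) + (-(j:ℤ))).toNat = ν l - j := by omega
    rw [e]
    exact hl2.2.1 j hj
  have hpow : ∀ j : ℕ, C0 ≤ j → ∀ t : ℝ, 0 < t → t ≤ 1 →
      |E (b (-j)) (fun k => t ^ k) - t ^ (mean (b (-j)))| ≤ √(mean (b (-j))) * |Real.log t| := by
    intro j hj t ht0 ht1
    have h1 := (hLv (-j)).e (fun k => t ^ k) ⟨1, fun k => by
      rw [abs_of_nonneg (pow_nonneg ht0.le _)]; exact pow_le_one₀ ht0.le ht1⟩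
    have h2 : Tendsto (fun l : ℕ => t ^ (mean (R^[((ν l : ℤ) + (-(j:ℤ))).toNat]
        (pois (x l))))) atTop (𝓝 (t ^ (mean (b (-j))))) :=
      ((Real.continuous_const_rpow ht0.ne').tendsto _).comp (hLv (-j)).mn
    have h3 := ((Real.continuous_sqrt.tendsto _).comp (hLv (-j)).mn).mul_const |Real.log t|
    refine le_of_tendsto_of_tendsto ((h1.sub h2).abs) h3 ?_
    filter_upwards [hev (-j), hb] with l hl hl2
    have hjl : j ≤ ν l := by simpa using hl
    have e : ((ν l : ℤ) + (-(j:ℤ))).toNat = ν l - j := by omega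
    simp only [Function.comp_apply]
    rw [e]
    exact E_pow_sub (hAM _ _) (hl2.2.2.2.1 j hjl hj) (hcr _ (hAM _ _)).1 ht0 ht1
  -- inequalities at all levels
  have hm0 : ∀ k : ℤ, 0 ≤ mean (b k) := fun k =>
    ge_of_tendsto' (hLv k).mn fun l => (hcr _ (hAM _ _)).1
  have hdec : ∀ k : ℤ, mean (b (k + 1)) ≤ mean (b k) - (1 - b k 0) / 6 := by
    intro k
    refine le_of_tendsto_of_tendsto (hLv (k + 1)).mn
      ((hLv k).mn.sub ((tendsto_const_nhds.sub (hconv k 0)).div_const 6)) ?_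
    filter_upwards [hev k] with l hl
    rw [hstep k l hl]
    exact (hrb _ (hAM _ _)).2.1
  have hquart : ∀ k : ℤ, mean (b (k + 1)) ≤ 32 / 125 * mean (b k) ^ 4 := by
    intro k
    refine le_of_tendsto_of_tendsto (hLv (k + 1)).mn
      (((hLv k).mn.pow 4).const_mul (32 / 125)) ?_
    filter_upwards [hev k] with l hl
    rw [hstep k l hl]
    exact (hrb _ (hAM _ _)).2.2.1
  have hWm : ∀ k : ℤ, W (b k) ≤ mean (b k) / 3 := fun k =>
    le_of_tendsto_of_tendsto' (hLv k).w ((hLv k).mn.div_const 3) fun l =>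
      (hwl _ (hAM _ _)).2.2.1
  have hW4 : ∀ k : ℤ, W (b k) ^ 4 ≤ W (b (k + 1)) := by
    intro k
    refine le_of_tendsto_of_tendsto ((hLv k).w.pow 4) (hLv (k + 1)).w ?_
    filter_upwards [hev k] with l hl
    rw [hstep k l hl]
    exact (hrb _ (hAM _ _)).2.2.2.2.1
  have hanti : ∀ k : ℤ, mean (b (k + 1)) ≤ mean (b k) := by
    intro k
    have h1 := hdec k
    have h2 := a0_le (hLv k).law
    linarith
  have hmneg' : ∀ j : ℕ, m ≤ mean (b (-(j : ℤ))) := by
    intro j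
    induction j with
    | zero => simp [hmz]
    | succ j ih =>
      have h1 := hanti (-((j + 1 : ℕ) : ℤ))
      have e : -((j + 1 : ℕ) : ℤ) + 1 = -(j : ℤ) := by push_cast; ring
      rw [e] at h1
      exact ih.trans h1
  have hW0 : 0 < W (b 0) := W_pos (hLv 0).law (lt_of_mean (hLv 0).law (by rw [hmz]; exact hm))
  have hWposn : ∀ k : ℕ, 0 < W (b k) := by
    intro k
    induction k with
    | zero => rw [Nat.cast_zero]; exact hW0
    | succ k ih =>
      have h1 := hW4 (k : ℤ)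
      push_cast
      exact (pow_pos ih 4).trans_le h1
  have hWpos : ∀ k : ℤ, 0 < W (b k) := by
    intro k
    rcases Int.natAbs_eq k with h | h
    · rw [h]; exact hWposn _
    · rw [h]
      exact W_pos (hLv _).law (lt_of_mean (hLv _).law (hm.trans_le (hmneg' _)))
  -- decay
  have hanti' : Antitone fun k : ℕ => mean (b (k:ℤ)) := antitone_nat_of_succ_le fun k => by
    have := hanti (k : ℤ)
    push_cast
    exact this
  have hsq : ∀ k : ℕ, mean (b k) ^ 2 ≤ (1 - b k 0) * C0 := by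
    intro k
    refine le_of_tendsto_of_tendsto ((hLv k).mn.pow 2)
      ((tendsto_const_nhds.sub (hconv k 0)).mul_const C0) ?_
    filter_upwards [hq2p k] with l hl
    have h1 := (hcr _ (hAM l (((ν l : ℤ) + k).toNat))).2.2.1
    refine h1.trans (mul_le_mul_of_nonneg_left hl ?_)
    have := a0_le (hAM l (((ν l : ℤ) + k).toNat)).toLaw
    linarith
  have hmz' : mean (b ((0:ℕ) : ℤ)) ≤ C0 := by
    have h1 := hmneg 0
    simp only [Nat.cast_zero, neg_zero, mul_zero, sub_zero, zero_add, Real.log_one, add_zero,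
      mul_one] at h1
    simpa using (abs_le.1 h1).2
  obtain ⟨k0, hk0⟩ : ∃ k0 : ℕ, mean (b (k0:ℤ)) ≤ 1 / 2 := by
    by_contra hcon
    push Not at hcon
    have h1 : ∀ k : ℕ, mean (b (k:ℤ)) ≤ C0 - k * (1 / (24 * C0)) := by
      intro k
      induction k with
      | zero => simpa using hmz'
      | succ k ih =>
        have h2 := hsq k
        have h3 := hcon k
        have h4 := hdec k
        have h5 : 1 / (4 * C0) ≤ 1 - b k 0 := by
          rw [div_le_iff₀ (by positivity)]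
          nlinarith
        have h6 : 1 / (24 * C0) = (1 / (4 * C0)) / 6 := by field_simp; norm_num
        have e : (((k + 1 : ℕ) : ℝ)) * (1 / (24 * C0)) = k * (1 / (24 * C0)) + 1 / (24 * C0) := by
          push_cast; ring
        rw [e]
        push_cast
        rw [h6] at ih ⊢
        linarith
    obtain ⟨n, hn⟩ := exists_nat_gt (C0 * (24 * C0))
    have h2 := h1 n
    have h3 := hcon n
    have h4 : C0 < n * (1 / (24 * C0)) := by
      rw [mul_one_div, lt_div_iff₀ (by positivity)]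
      exact hn
    linarith
  have hfast : ∀ i : ℕ, mean (b ((k0 + i : ℕ) : ℤ)) ≤ (1 / 2 : ℝ) ^ (4 ^ i) := by
    intro i
    induction i with
    | zero => simpa using hk0
    | succ i ih =>
      have h1 := hquart ((k0 + i : ℕ) : ℤ)
      have h2 : mean (b ((k0 + i : ℕ) : ℤ)) ^ 4 ≤ ((1 / 2 : ℝ) ^ (4 ^ i)) ^ 4 :=
        pow_le_pow_left₀ (hm0 _) ih 4
      have e : ((1 / 2 : ℝ) ^ (4 ^ i)) ^ 4 = (1 / 2 : ℝ) ^ (4 ^ (i + 1)) := by
        rw [← pow_mul, pow_succ 4 i]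
      rw [e] at h2
      have h3 : (0:ℝ) ≤ mean (b ((k0 + i : ℕ) : ℤ)) ^ 4 := pow_nonneg (hm0 _) 4
      have e2 : ((k0 + (i + 1) : ℕ) : ℤ) = ((k0 + i : ℕ) : ℤ) + 1 := by push_cast; ring
      rw [e2]
      linarith
  have hl2 : 0 < Real.log 2 := Real.log_pos (by norm_num)
  obtain ⟨c, hcd⟩ : ∃ c, c = Real.log 2 / 4 ^ k0 := ⟨_, rfl⟩
  have hc0 : 0 < c := by rw [hcd]; positivity
  have hexp : ∀ i : ℕ, (1 / 2 : ℝ) ^ (4 ^ i) = Real.exp (-c * 4 ^ (k0 + i)) := by
    intro i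
    have h1 : (1 / 2 : ℝ) = Real.exp (-Real.log 2) := by
      rw [Real.exp_neg, Real.exp_log (by norm_num)]; norm_num
    rw [h1, ← Real.exp_nat_mul, hcd]
    congr 1
    push_cast
    rw [pow_add]
    field_simp
  have hmexp : ∀ k : ℕ, k0 ≤ k → mean (b (k:ℤ)) ≤ Real.exp (-c * 4 ^ k) := by
    intro k hk
    obtain ⟨i, rfl⟩ := Nat.exists_eq_add_of_le hk
    rw [← hexp]
    exact hfast i
  have hdecay : ∀ k : ℕ, mean (b (k:ℤ)) ≤ (2 * C0 + 1) * Real.exp (-c * 4 ^ k) := by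
    intro k
    have he : 0 < Real.exp (-c * 4 ^ k) := Real.exp_pos _
    rcases le_or_gt k0 k with hk | hk
    · refine (hmexp k hk).trans ?_
      nlinarith
    · have h1 : mean (b (k:ℤ)) ≤ C0 := (hanti' (Nat.zero_le k)).trans hmz'
      have h2 : (1 / 2 : ℝ) ≤ Real.exp (-c * 4 ^ k) := by
        have h3 := hexp 0
        simp only [pow_zero, pow_one, add_zero] at h3
        rw [h3, Real.exp_le_exp]
        have h4 : (4:ℝ) ^ k ≤ 4 ^ k0 := pow_le_pow_right₀ (by norm_num) hk.le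
        nlinarith
      nlinarith
  refine ⟨2 * C0 + 1, by linarith, ?_, fun k => (hLv k).law,
    fun k => (hLv k).sm, fun k => (hLv k).mn, hrec, hmz, fun k => ⟨hWpos k, W_lt_one (hLv k).law⟩,
    fun j => ?_, fun j hj => hpow j (by linarith),
    fun k => one_sub_le_mean (hLv k).law (hLv k).sm, fun k => lt_of_W (hLv k).law (hWpos k),
    ⟨c, hc0, hdecay⟩, ?_⟩
  · filter_upwards [hb] with l hl
    refine hl.1.trans (mul_le_mul_of_nonneg_right (by linarith) ?_)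
    have : 0 ≤ Real.log ((ν l:ℝ) + 1) :=
      Real.log_nonneg (by have : (0:ℝ) ≤ ν l := Nat.cast_nonneg (ν l); linarith)
    linarith
  · refine (hmneg j).trans (mul_le_mul_of_nonneg_right (by linarith) ?_)
    have : 0 ≤ Real.log ((j:ℝ) + 1) :=
      Real.log_nonneg (by have : (0:ℝ) ≤ j := Nat.cast_nonneg j; linarith)
    linarith
  · -- the string tension
    have hx' : Antitone fun n : ℕ => -Real.log (W (b n)) / 4 ^ n := by
      refine antitone_nat_of_succ_le fun n => ?_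
      have h1 := Real.log_le_log (pow_pos (hWpos n) 4) (hW4 n)
      rw [Real.log_pow, Nat.cast_ofNat] at h1
      rw [div_le_div_iff₀ (by positivity) (by positivity), pow_succ]
      have h2 : (0:ℝ) < 4 ^ n := by positivity
      push_cast
      nlinarith
    have hlow : ∀ n : ℕ, c ≤ -Real.log (W (b n)) / 4 ^ n := by
      intro n
      refine le_trans ?_ (hx' (Nat.le_add_left n k0))
      have h1 : W (b ((k0 + n : ℕ) : ℤ)) ≤ Real.exp (-c * 4 ^ (k0 + n)) := by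
        have h2 := hWm ((k0 + n : ℕ) : ℤ)
        have h3 := hmexp (k0 + n) (Nat.le_add_right _ _)
        have h4 := hm0 ((k0 + n : ℕ) : ℤ)
        linarith
      have h2 := Real.log_le_log (hWpos ((k0 + n : ℕ) : ℤ)) h1
      rw [Real.log_exp] at h2
      rw [le_div_iff₀ (by positivity)]
      linarith
    have hbdd : BddBelow (Set.range fun n : ℕ => -Real.log (W (b n)) / 4 ^ n) :=
      ⟨c, by rintro _ ⟨n, rfl⟩; exact hlow n⟩
    exact ⟨_, hc0.trans_le (le_ciInf hlow), tendsto_atTop_ciInf hx' hbdd⟩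

end Pool.Agent.Q224.MK
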