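import Pool.Agent.Q291.MK.Stm4
import Pool.Agent.Q291.MK.Base

/-!
# Job CMP of project MK: two long orbits with nearly equal final mean are close
-/

namespace Pool.Agent.Q224.MK

open Filter Topology Pool.Agent.Q291.MK

theorem am_it {a : ℕ → ℝ} (ha : AM a) (n : ℕ) : AM (R^[n] a) := by
  induction n with
  | zero => exact ha
  | succ n ih =>
    rw [Function.iterate_succ_apply']
    exact (bRB _ ih).1

theorem mean_step {a : ℕ → ℝ} (ha : AM a) : mean (R a) ≤ mean a := by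
  have h := (bRB a ha).2.1
  have h1 : a 0 ≤ 1 := le_hasSum ha.one 0 (fun k _ => ha.nn k)
  linarith

theorem mean_anti {a : ℕ → ℝ} (ha : AM a) : Antitone (fun n => mean (R^[n] a)) :=
  antitone_nat_of_succ_le fun n => by
    rw [Function.iterate_succ_apply']
    exact mean_step (am_it ha n)

theorem cl_up {C3 C8 C12 : ℝ} {a : ℕ → ℝ} (ha : Cl C3 C8 C12 a) (hm : 0 ≤ mean a) :
    Cl (C3 + 3) (C8 + 1) (C12 + 1) a where
  toAM := ha.toAM
  vr_le := ha.vr_le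
  k3_le := ha.k3_le.trans (mul_le_mul_of_nonneg_right (by linarith) hm)
  m8_le := ha.m8_le.trans (mul_le_mul_of_nonneg_right (by linarith) (by positivity))
  m12_le := ha.m12_le.trans (mul_le_mul_of_nonneg_right (by linarith) (by positivity))

section
variable {C3 C8 C12 M e C : ℝ}

theorem cl_it (hC : Cst C3 C8 C12 M e C) {a : ℕ → ℝ} (ha : Cl C3 C8 C12 a) (N : ℕ)
    (hN : M ≤ mean (R^[N] a)) : ∀ n ≤ N, Cl C3 C8 C12 (R^[n] a) := by
  intro n
  induction n with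
  | zero => intro _; exact ha
  | succ n ih =>
    intro hn
    rw [Function.iterate_succ_apply']
    exact hC.step _ (ih (by omega)) (hN.trans (mean_anti ha.toAM (by omega : n ≤ N)))

theorem drop (hC : Cst C3 C8 C12 M e C) {a : ℕ → ℝ} (ha : Cl C3 C8 C12 a) (n k : ℕ)
    (hN : M ≤ mean (R^[n + k] a)) :
    mean (R^[n + k] a) + k ≤ mean (R^[n] a) ∧ mean (R^[n] a) ≤ mean (R^[n + k] a) + 4 * k := by
  have hM := hC.hM
  have hcl := cl_it hC ha (n + k) hN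
  have key : ∀ j ≤ k, mean (R^[n + j] a) + j ≤ mean (R^[n] a) ∧
      mean (R^[n] a) ≤ mean (R^[n + j] a) + 4 * j := by
    intro j
    induction j with
    | zero => intro _; simp
    | succ j ih =>
      intro hj
      obtain ⟨h1, h2⟩ := ih (by omega)
      have h3 : M ≤ mean (R^[n + j] a) := hN.trans (mean_anti ha.toAM (by omega : n + j ≤ n + k))
      obtain ⟨_, h4, h5, _⟩ := hC.stepP _ (cl_up (hcl (n + j) (by omega)) (by linarith)) h3
      rw [← add_assoc, Function.iterate_succ_apply']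
      push_cast
      constructor <;> linarith
  exact key k le_rfl

theorem vr_small (hC : Cst C3 C8 C12 M e C) {a : ℕ → ℝ} (ha : Cl C3 C8 C12 a) (hm : M ≤ mean a) :
    vr (R a) ≤ 2 / 5 * mean (R a) := by
  have hM := hC.hM
  have hC1 := hC.hC
  have hMC := hC.hMC
  obtain ⟨h0, h1, _, h2, _⟩ := hC.stepP _ (cl_up ha (by linarith)) hm
  have hpos : 0 < mean (R a) := by linarith
  have hpa : 0 < mean a := by linarith
  have h3 := (abs_le.1 h2).2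
  have h4 : vr a / mean a ≤ 1 := (div_le_one hpa).2 ha.vr_le
  have h5 : C / mean a ≤ 1 / 100 := by
    rw [div_le_iff₀ hpa]
    linarith
  have h6 : vr (R a) / mean (R a) ≤ 2 / 5 := by linarith
  exact (div_le_iff₀ hpos).1 h6

end

/-- the test function -/
theorem tst_ind (e m : ℝ) (he : 0 ≤ e) (hm : 0 < m) (l : ℕ) :
    Tst e m (fun k => if k = l then (1 / 2 : ℝ) else 0) := by
  have hb : ∀ k : ℕ, 0 ≤ (if k = l then (1 / 2 : ℝ) else 0) ∧ (if k = l then (1 / 2 : ℝ) else 0) ≤ 1 / 2 := by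
    intro k
    split_ifs <;> norm_num
  refine ⟨(PB.const (1 / 2)).of_le fun k => ?_, fun J => ?_⟩
  · rw [abs_of_nonneg (hb k).1]
    exact (hb k).2
  · have h0 : (1 : ℝ) ≤ wt e m J := by
      unfold wt
      have h2 : 0 ≤ ((J : ℝ) - m) ^ 10 / m ^ 5 := by
        have : 0 ≤ ((J : ℝ) - m) ^ 10 := by
          rw [show (10 : ℕ) = 2 * 5 by norm_num, pow_mul]
          positivity
        positivity
      have := mul_nonneg he h2
      linarith
    refine le_trans ?_ h0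
    unfold dl
    have h1 := hb (J + 1 + 1)
    have h2 := hb (J + 1)
    have h3 := hb J
    rw [abs_le]
    constructor <;> linarith [h1.1, h1.2, h2.1, h2.2, h3.1, h3.2]

theorem E_ind (a : ℕ → ℝ) (l : ℕ) : E a (fun k => if k = l then (1 / 2 : ℝ) else 0) = a l / 2 := by
  unfold E
  rw [tsum_eq_single l]
  · simp; ring
  · intro k hk
    simp [hk]

theorem fd_pt {e : ℝ} (he : 0 ≤ e) {a b : ℕ → ℝ} (ha : AM a) (hm : 0 < mean a) {r : ℝ} (h : Fd e a b r) (l : ℕ) :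
    |b l - a l| ≤ 2 * (r + |mean b - mean a|) := by
  have h1 := h _ (tst_ind e (mean a) he hm l)
  rw [E_ind, E_ind] at h1
  obtain ⟨φ, hφ⟩ : ∃ φ : ℕ → ℝ, φ = fun k => if k = l then (1 / 2 : ℝ) else 0 := ⟨_, rfl⟩
  rw [← hφ] at h1
  have hb : ∀ k : ℕ, 0 ≤ φ k ∧ φ k ≤ 1 / 2 := by
    intro k
    rw [hφ]
    show 0 ≤ (if k = l then (1 / 2 : ℝ) else 0) ∧ (if k = l then (1 / 2 : ℝ) else 0) ≤ 1 / 2
    split_ifs <;> norm_num
  have hd : ∀ k, |dl φ k| ≤ 1 := by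
    intro k
    unfold dl
    have h2 := hb (k + 1)
    have h3 := hb k
    rw [abs_le]
    constructor <;> linarith [h2.1, h2.2, h3.1, h3.2]
  have hPB : PB (dl φ) := (PB.const 1).of_le hd
  have h2 : |E a (dl φ)| ≤ 1 := by
    refine (ha.abs_E_le hPB).trans ?_
    refine (ha.E_mono hPB.abs (PB.const 1) hd).trans ?_
    rw [ha.toLaw.E_const]
  have h3 : |(mean b - mean a) * E a (dl φ)| ≤ |mean b - mean a| := by
    rw [abs_mul]
    exact mul_le_of_le_one_right (abs_nonneg _) h2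
  have h4 := abs_le.1 h1
  have h5 := abs_le.1 h3
  rw [abs_le]
  constructor <;> linarith [h4.1, h4.2, h5.1, h5.2]

theorem asym1 (m : ℝ) : ∀ᶠ i : ℕ in atTop, m + 1 + 4 * ((i : ℝ) + 1) ^ 2 ≤ 2 ^ i := by
  have h2 : Tendsto (fun n : ℕ => (n : ℝ) ^ 2 * (1 / 2 : ℝ) ^ n) atTop (𝓝 0) :=
    tendsto_pow_const_mul_const_pow_of_abs_lt_one 2 (by rw [abs_of_pos] <;> norm_num)
  have h1 : Tendsto (fun n : ℕ => (n : ℝ) ^ 1 * (1 / 2 : ℝ) ^ n) atTop (𝓝 0) :=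
    tendsto_pow_const_mul_const_pow_of_abs_lt_one 1 (by rw [abs_of_pos] <;> norm_num)
  have h0 : Tendsto (fun n : ℕ => (n : ℝ) ^ 0 * (1 / 2 : ℝ) ^ n) atTop (𝓝 0) :=
    tendsto_pow_const_mul_const_pow_of_abs_lt_one 0 (by rw [abs_of_pos] <;> norm_num)
  have h := ((h2.const_mul 4).add (h1.const_mul 8)).add (h0.const_mul (m + 5))
  have h3 : 4 * (0 : ℝ) + 8 * 0 + (m + 5) * 0 < 1 := by norm_num
  filter_upwards [h.eventually (gt_mem_nhds h3)] with i hi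
  have hp : (0 : ℝ) < 2 ^ i := by positivity
  have h4 : (1 / 2 : ℝ) ^ i = 1 / 2 ^ i := by rw [div_pow, one_pow]
  rw [h4] at hi
  have h5 : 4 * ((i : ℝ) ^ 2 * (1 / 2 ^ i)) + 8 * ((i : ℝ) ^ 1 * (1 / 2 ^ i)) + (m + 5) * ((i : ℝ) ^ 0 * (1 / 2 ^ i)) =
      (m + 1 + 4 * ((i : ℝ) + 1) ^ 2) / 2 ^ i := by
    field_simp
    ring
  rw [h5, div_lt_one hp] at hi
  exact hi.le

theorem asym2 (m P Dm δ : ℝ) (κ : ℕ) (hm : 0 ≤ m) (hP : 0 ≤ P) (hDm : 0 ≤ Dm) (hδ : 0 < δ) :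
    ∀ᶠ j : ℕ in atTop, ∀ μ : ℝ, (j : ℝ) ≤ μ → μ ≤ m + 1 + 4 * j →
      Dm / √μ ≤ δ ∧ Dm * (√μ / 2 ^ (j - κ) + P / √μ) ≤ δ := by
  have h1 : Tendsto (fun n : ℕ => (n : ℝ) ^ 1 * (1 / 2 : ℝ) ^ n) atTop (𝓝 0) :=
    tendsto_pow_const_mul_const_pow_of_abs_lt_one 1 (by rw [abs_of_pos] <;> norm_num)
  have h0 : Tendsto (fun n : ℕ => (n : ℝ) ^ 0 * (1 / 2 : ℝ) ^ n) atTop (𝓝 0) :=
    tendsto_pow_const_mul_const_pow_of_abs_lt_one 0 (by rw [abs_of_pos] <;> norm_num)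
  have hs : Tendsto (fun n : ℕ => (√(n : ℝ))⁻¹) atTop (𝓝 0) :=
    tendsto_inv_atTop_zero.comp (Real.tendsto_sqrt_atTop.comp tendsto_natCast_atTop_atTop)
  have h := (((h1.const_mul (Dm * 2 ^ κ * 4)).add (h0.const_mul (Dm * 2 ^ κ * (m + 1)))).add
    (hs.const_mul (Dm * P))).add (hs.const_mul Dm)
  have h3 : Dm * 2 ^ κ * 4 * (0 : ℝ) + Dm * 2 ^ κ * (m + 1) * 0 + Dm * P * 0 + Dm * 0 < δ := by
    simpa using hδ
  filter_upwards [h.eventually (gt_mem_nhds h3), eventually_ge_atTop (κ + 1)] with j hj hjκ μ hμ1 hμ2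
  have hj1 : (1 : ℝ) ≤ j := by
    have : 1 ≤ j := by omega
    exact_mod_cast this
  have hsj : 0 < √(j : ℝ) := Real.sqrt_pos.2 (by linarith)
  have hsμ : √(j : ℝ) ≤ √μ := Real.sqrt_le_sqrt hμ1
  have hsμ0 : 0 < √μ := hsj.trans_le hsμ
  have hinv : (√μ)⁻¹ ≤ (√(j : ℝ))⁻¹ := inv_anti₀ hsj hsμ
  have hsm : √μ ≤ m + 1 + 4 * j := by
    refine le_trans ?_ hμ2
    exact Real.sqrt_le_self_iff.2 (Or.inr (by linarith))
  have hpow : (2 : ℝ) ^ j = 2 ^ (j - κ) * 2 ^ κ := by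
    rw [← pow_add]
    congr 1
    omega
  have h4 : (1 / 2 : ℝ) ^ j = 1 / 2 ^ j := by rw [div_pow, one_pow]
  rw [h4] at hj
  have h5 : √μ / 2 ^ (j - κ) ≤ 2 ^ κ * (m + 1 + 4 * j) * (1 / 2 ^ j) := by
    rw [hpow, div_le_iff₀ (by positivity)]
    have : 2 ^ κ * (m + 1 + 4 * (j : ℝ)) * (1 / (2 ^ (j - κ) * 2 ^ κ)) * 2 ^ (j - κ) = m + 1 + 4 * j := by
      field_simp
    rw [this]
    exact hsm
  have e1 : Dm / √μ ≤ Dm * (√(j : ℝ))⁻¹ := by
    rw [div_eq_mul_inv]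
    exact mul_le_mul_of_nonneg_left hinv hDm
  have e2 : Dm * (√μ / 2 ^ (j - κ) + P / √μ) ≤ Dm * (2 ^ κ * (m + 1 + 4 * j) * (1 / 2 ^ j) + P * (√(j : ℝ))⁻¹) := by
    refine mul_le_mul_of_nonneg_left ?_ hDm
    refine add_le_add h5 ?_
    rw [div_eq_mul_inv]
    exact mul_le_mul_of_nonneg_left hinv hP
  have p1 : 0 ≤ Dm * 2 ^ κ * 4 * ((j : ℝ) ^ 1 * (1 / 2 ^ j)) := by positivity
  have p2 : 0 ≤ Dm * 2 ^ κ * (m + 1) * ((j : ℝ) ^ 0 * (1 / 2 ^ j)) := by positivity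
  have p3 : 0 ≤ Dm * P * (√(j : ℝ))⁻¹ := by positivity
  have p4 : 0 ≤ Dm * (√(j : ℝ))⁻¹ := by positivity
  constructor
  · linarith
  · refine e2.trans ?_
    have e3 : Dm * (2 ^ κ * (m + 1 + 4 * j) * (1 / 2 ^ j) + P * (√(j : ℝ))⁻¹) =
        Dm * 2 ^ κ * 4 * ((j : ℝ) ^ 1 * (1 / 2 ^ j)) + Dm * 2 ^ κ * (m + 1) * ((j : ℝ) ^ 0 * (1 / 2 ^ j)) +
          Dm * P * (√(j : ℝ))⁻¹ := by
      ring
    rw [e3]
    linarith

theorem near {C3 C8 C12 M e C Db : ℝ} (hC : Cst C3 C8 C12 M e C) (hDb : 1 ≤ Db)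
    (hBM : ∀ (m1 m2 : ℝ) (N : ℕ), m1 ≤ m2 → (∀ n < N, M ≤ mean (R^[n] (pois m1))) → 0 < m1 → ∀ n ≤ N,
      3 / 4 * (m2 - m1) ≤ mean (R^[n] (pois m2)) - mean (R^[n] (pois m1)) ∧
      mean (R^[n] (pois m2)) - mean (R^[n] (pois m1)) ≤ 5 / 4 * (m2 - m1) ∧
      (m2 - m1 ≤ 1 → M + Db ≤ mean (R^[n] (pois m1)) →
        Fd e (R^[n] (pois m1)) (R^[n] (pois m2)) (Db * (m2 - m1) * √(mean (R^[n] (pois m1))))))
    {p q P δ : ℝ} (hp : 0 < p) (hpq : p ≤ q) (hP : 1 ≤ P) (hδ4 : δ ≤ 1 / 4) (N κ : ℕ)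
    (hbig : M + Db ≤ mean (R^[N] (pois p)))
    (hdiff : mean (R^[N] (pois q)) - mean (R^[N] (pois p)) ≤ 3 * δ)
    (hmP : mean (R^[N - κ] (pois p)) ≤ P) (l : ℕ) :
    |(R^[N - κ] (pois q)) l - (R^[N - κ] (pois p)) l| ≤ 2 * (Db * P + 5 / 4) * (4 * δ) := by
  have hM := hC.hM
  have ham := (bPOIS p hp.le).1
  have hant := mean_anti ham
  have hall : ∀ n < N, M ≤ mean (R^[n] (pois p)) := fun n hn => by
    have := hant (by omega : n ≤ N)
    simp only at this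
    linarith
  obtain ⟨h1, _, _⟩ := hBM p q N hpq hall hp N le_rfl
  obtain ⟨h2, h3, h4⟩ := hBM p q N hpq hall hp (N - κ) (Nat.sub_le _ _)
  have hd : q - p ≤ 4 * δ := by linarith
  have hd0 : 0 ≤ q - p := by linarith
  have hb2 : M + Db ≤ mean (R^[N - κ] (pois p)) := by
    have := hant (Nat.sub_le N κ)
    simp only at this
    linarith
  have h5 := fd_pt hC.he.le (am_it ham (N - κ)) (by linarith) (h4 (by linarith) hb2) l
  refine h5.trans ?_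
  have h6 : √(mean (R^[N - κ] (pois p))) ≤ P := by
    have h7 : √(mean (R^[N - κ] (pois p))) ≤ mean (R^[N - κ] (pois p)) :=
      Real.sqrt_le_self_iff.2 (Or.inr (by linarith))
    linarith
  rw [abs_of_nonneg (by linarith : 0 ≤ mean (R^[N - κ] (pois q)) - mean (R^[N - κ] (pois p)))]
  have h8 : Db * (q - p) * √(mean (R^[N - κ] (pois p))) ≤ Db * (q - p) * P :=
    mul_le_mul_of_nonneg_left h6 (by positivity)
  have h9 : (Db * P + 5 / 4) * (q - p) ≤ (Db * P + 5 / 4) * (4 * δ) :=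
    mul_le_mul_of_nonneg_left hd (by positivity)
  have h10 : Db * (q - p) * P + 5 / 4 * (q - p) = (Db * P + 5 / 4) * (q - p) := by ring
  linarith

theorem t_CMP : P_MEM → P_BMON → P_BEX → P_CRN → P_CMP := by
  intro hMEM hBM hBEX _ C3 C8 C12 M e C hC
  obtain ⟨Dm, hDm, hMEM⟩ := hMEM C3 C8 C12 M e C hC
  obtain ⟨Db, hDb, hBM⟩ := hBM C3 C8 C12 M e C hC
  have hBEX := hBEX C3 C8 C12 M e C hC
  have hM := hC.hM
  have he := hC.he
  refine ⟨Dm + Db + 2, by linarith, fun m hm κ ε hε => ?_⟩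
  have hm0 : 0 ≤ m := by linarith
  obtain ⟨P, hP⟩ : ∃ P : ℝ, P = m + 1 + 4 * κ := ⟨_, rfl⟩
  have hκ0 : (0 : ℝ) ≤ κ := Nat.cast_nonneg κ
  have hP1 : 1 ≤ P := by rw [hP]; linarith
  obtain ⟨Q, hQ⟩ : ∃ Q : ℝ, Q = 2 * (Db * P + 5 / 4) * (4 / 3) := ⟨_, rfl⟩
  have hQ0 : 0 ≤ Q := by rw [hQ]; positivity
  obtain ⟨δ, hδ⟩ : ∃ δ : ℝ, δ = min (1 / 4) (ε / (3 * Q + 4)) := ⟨_, rfl⟩
  have hδ0 : 0 < δ := by rw [hδ]; positivity
  have hδ4 : δ ≤ 1 / 4 := by rw [hδ]; exact min_le_left _ _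
  have hδε : (3 * Q + 4) * δ ≤ ε := by
    have h1 : δ ≤ ε / (3 * Q + 4) := by rw [hδ]; exact min_le_right _ _
    rw [le_div_iff₀ (by positivity)] at h1
    linarith
  obtain ⟨J0, hJ0⟩ := eventually_atTop.1 (asym2 m P Dm δ κ hm0 (by linarith) (by linarith) hδ0)
  obtain ⟨J1, hJ1⟩ := eventually_atTop.1 (asym2 m P Dm δ 0 hm0 (by linarith) (by linarith) hδ0)
  obtain ⟨I1, hI1⟩ := eventually_atTop.1 (asym1 m)
  obtain ⟨I2, hI2⟩ := exists_nat_ge (Dm + 2)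
  obtain ⟨I0, hI0⟩ : ∃ I0 : ℕ, I0 = I1 + I2 + J0 + J1 + κ + 2 := ⟨_, rfl⟩
  refine ⟨I0 * I0, δ, hδ0, fun N1 N2 x1 x2 hN0 hN12 hx1 hx2 hm1 hm2 l => ?_⟩
  -- the choice of `i` and `j`
  obtain ⟨i, hi⟩ : ∃ i : ℕ, i = Nat.sqrt N1 := ⟨_, rfl⟩
  have hi1 : i * i ≤ N1 := by rw [hi]; exact Nat.sqrt_le N1
  have hi2 : N1 < (i + 1) * (i + 1) := by rw [hi]; exact Nat.lt_succ_sqrt N1
  have hi3 : I0 ≤ i := by rw [hi]; exact Nat.le_sqrt.2 hN0
  have hmul : (I2 + J0 + J1 + κ + 2) * i ≤ i * i := Nat.mul_le_mul_right _ (by omega)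
  have hmul2 : (I2 + J0 + J1 + κ + 2) * i = I2 * i + J0 * i + J1 * i + κ * i + 2 * i := by ring
  have hipos : 0 < i := by omega
  have hJ0i : J0 ≤ J0 * i := Nat.le_mul_of_pos_right _ hipos
  have hJ1i : J1 ≤ J1 * i := Nat.le_mul_of_pos_right _ hipos
  have hκi : κ ≤ κ * i := Nat.le_mul_of_pos_right _ hipos
  obtain ⟨j, hj⟩ : ∃ j, N1 = i + 1 + j := ⟨N1 - (i + 1), by omega⟩
  obtain ⟨d, hd⟩ : ∃ d, N2 = N1 + d := ⟨N2 - N1, by omega⟩
  have hjJ0 : J0 ≤ j := by omega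
  have hjJ1 : J1 ≤ j := by omega
  have hjκ : κ ≤ j := by omega
  have hjI : I2 * i ≤ j := by omega
  have hiI1 : I1 ≤ i := by omega
  have hjI' : (i : ℝ) * Dm ≤ j := by
    have h1 : ((I2 * i : ℕ) : ℝ) ≤ j := by exact_mod_cast hjI
    push_cast at h1
    have h2 : (i : ℝ) * Dm ≤ i * I2 := mul_le_mul_of_nonneg_left (by linarith) (Nat.cast_nonneg i)
    linarith
  have hpow : m + 1 + 4 * (j : ℝ) ≤ 2 ^ i := by
    refine le_trans ?_ (hI1 i hiI1)
    have h1 : (j : ℝ) ≤ ((i : ℝ) + 1) ^ 2 := by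
      have h2 : j ≤ (i + 1) * (i + 1) := by omega
      have h3 : (j : ℝ) ≤ (((i + 1) * (i + 1) : ℕ) : ℝ) := by exact_mod_cast h2
      push_cast at h3
      linarith
    linarith
  -- the long orbit
  have hm1' := abs_le.1 hm1
  have hm2' := abs_le.1 hm2
  have ham2 := (bPOIS x2 hx2.le).1
  have hmx2 := (bPOIS x2 hx2.le).2.1
  have hant2 := mean_anti ham2
  have hbig2 : M + Dm + Db + 1 ≤ mean (R^[N2] (pois x2)) := by linarith
  have hx2M : M ≤ x2 := by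
    have := hant2 (Nat.zero_le N2)
    simp only [Function.iterate_zero, id_eq] at this
    rw [hmx2] at this
    linarith
  have hcl2 := hC.pois x2 hx2M
  have hclit2 := cl_it hC hcl2 N2 (by linarith)
  obtain ⟨a, ha⟩ : ∃ a, a = R^[d + 1] (pois x2) := ⟨_, rfl⟩
  have hra : ∀ n, R^[n] a = R^[n + (d + 1)] (pois x2) := by
    intro n
    rw [ha, Function.iterate_add_apply R n (d + 1)]
  have hcla : Cl C3 C8 C12 a := by rw [ha]; exact hclit2 (d + 1) (by omega)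
  have hvra : vr a ≤ 2 / 5 * mean a := by
    rw [ha, Function.iterate_succ_apply']
    refine vr_small hC (hclit2 d (by omega)) ?_
    have := hant2 (by omega : d ≤ N2)
    simp only at this
    linarith
  obtain ⟨μ, hμ⟩ : ∃ μ, μ = mean (R^[i] a) := ⟨_, rfl⟩
  have hdrop : mean (R^[N2] (pois x2)) + j ≤ μ ∧ μ ≤ mean (R^[N2] (pois x2)) + 4 * j := by
    have hN2 : N2 = i + (d + 1) + j := by omega
    rw [hμ, hra, hN2]
    refine drop hC hcl2 (i + (d + 1)) j ?_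
    rw [← hN2]
    linarith
  have hμj : (j : ℝ) ≤ μ := by linarith [hdrop.1]
  have hμu : μ ≤ m + 1 + 4 * j := by linarith [hdrop.2, hm2'.2]
  have hj0 : (0 : ℝ) ≤ j := Nat.cast_nonneg j
  obtain ⟨x', hx'1, hx'2, _⟩ := hBEX μ (i + 1) (by linarith [hdrop.1])
  have hx'M : M ≤ x' := by linarith [hdrop.1]
  have hx' : 0 < x' := by linarith
  obtain ⟨b, hb⟩ : ∃ b, b = R^[1] (pois x') := ⟨_, rfl⟩
  have hrb : ∀ n, R^[n] b = R^[n + 1] (pois x') := by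
    intro n
    rw [hb, Function.iterate_add_apply R n 1]
  have hclp := hC.pois x' hx'M
  have hmx' : mean (pois x') = x' := (bPOIS x' hx'.le).2.1
  have hclb : Cl C3 C8 C12 b := by rw [hb]; exact hC.step _ hclp (by rw [hmx']; exact hx'M)
  have hvrb : vr b ≤ 2 / 5 * mean b := by rw [hb]; exact vr_small hC hclp (by rw [hmx']; exact hx'M)
  have heq : mean (R^[i] b) = mean (R^[i] a) := by rw [hrb, hx'2, hμ]
  -- the levels of the long orbit
  have hlev : ∀ k : ℕ, k ≤ j → R^[i + (j - k)] a = R^[N2 - k] (pois x2) ∧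
      R^[i + (j - k)] b = R^[N1 - k] (pois x') := by
    intro k hk
    constructor
    · rw [hra]
      congr 2
      omega
    · rw [hrb]
      congr 2
      omega
  have hlevm : ∀ k : ℕ, k ≤ j → M + Dm + Db + 1 ≤ mean (R^[N2 - k] (pois x2)) := by
    intro k hk
    have := hant2 (Nat.sub_le N2 k)
    simp only at this
    linarith
  have hmem : ∀ k : ℕ, k ≤ j → |mean (R^[N1 - k] (pois x')) - mean (R^[N2 - k] (pois x2))| ≤ Dm / √μ ∧
      Fd e (R^[N2 - k] (pois x2)) (R^[N1 - k] (pois x')) (Dm * (√μ / 2 ^ (j - k) +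
        √(mean (R^[N2 - k] (pois x2))) / √μ)) := by
    intro k hk
    obtain ⟨e1, e2⟩ := hlev k hk
    have h := hMEM a b i (j - k) hcla hclb hvra hvrb heq (by rw [e1]; linarith [hlevm k hk])
      (by rw [← hμ]; linarith) (by rw [← hμ]; linarith)
    rw [e1, e2, ← hμ] at h
    exact h
  have hfinal := (hmem 0 (Nat.zero_le _)).1
  rw [Nat.sub_zero, Nat.sub_zero] at hfinal
  have hasy := hJ0 j hjJ0 μ hμj hμu
  have hfinal' := abs_le.1 (hfinal.trans hasy.1)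
  -- comparison of the orbit of x' with the long orbit at level κ
  obtain ⟨hκ1, hκ2⟩ := hmem κ hjκ
  have hmκ : mean (R^[N2 - κ] (pois x2)) ≤ P := by
    have hN2κ : N2 - κ + κ = N2 := by omega
    have h := (drop hC hcl2 (N2 - κ) κ (by rw [hN2κ]; linarith)).2
    rw [hN2κ] at h
    rw [hP]
    linarith
  have hsqκ : √(mean (R^[N2 - κ] (pois x2))) ≤ P := by
    have h7 : √(mean (R^[N2 - κ] (pois x2))) ≤ mean (R^[N2 - κ] (pois x2)) :=
      Real.sqrt_le_self_iff.2 (Or.inr (by linarith [hlevm κ hjκ]))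
    linarith
  have hr : Dm * (√μ / 2 ^ (j - κ) + √(mean (R^[N2 - κ] (pois x2))) / √μ) ≤ δ := by
    refine le_trans ?_ hasy.2
    refine mul_le_mul_of_nonneg_left ?_ (by linarith)
    exact add_le_add le_rfl (div_le_div_of_nonneg_right hsqκ (Real.sqrt_nonneg _))
  have hpt := fd_pt he.le (am_it ham2 (N2 - κ)) (by linarith [hlevm κ hjκ]) hκ2 l
  have hpt2 : |(R^[N1 - κ] (pois x')) l - (R^[N2 - κ] (pois x2)) l| ≤ 4 * δ := by
    have := hκ1.trans hasy.1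
    linarith
  -- comparison of the orbits of x' and x1
  have ham1 := (bPOIS x1 hx1.le).1
  have hant1 := mean_anti ham1
  have hmx1 := (bPOIS x1 hx1.le).2.1
  have hx1M : M ≤ x1 := by
    have := hant1 (Nat.zero_le N1)
    simp only [Function.iterate_zero, id_eq] at this
    rw [hmx1] at this
    linarith
  have hmκ' : ∀ p : ℝ, M ≤ p → M ≤ mean (R^[N1] (pois p)) → mean (R^[N1] (pois p)) ≤ m + 1 →
      mean (R^[N1 - κ] (pois p)) ≤ P := by
    intro p hp1 hp2 hp3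
    have hN1κ : N1 - κ + κ = N1 := by omega
    have h := (drop hC (hC.pois p hp1) (N1 - κ) κ (by rw [hN1κ]; exact hp2)).2
    rw [hN1κ] at h
    rw [hP]
    linarith
  have hpt3 : |(R^[N1 - κ] (pois x1)) l - (R^[N1 - κ] (pois x')) l| ≤ 2 * (Db * P + 5 / 4) * (4 * δ) := by
    rcases le_total x' x1 with h | h
    · exact near hC hDb hBM hx' h hP1 hδ4 N1 κ (by linarith) (by linarith)
        (hmκ' x' hx'M (by linarith) (by linarith)) l
    · rw [abs_sub_comm]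
      exact near hC hDb hBM hx1 h hP1 hδ4 N1 κ (by linarith) (by linarith)
        (hmκ' x1 hx1M (by linarith) (by linarith)) l
  have hsum : (R^[N1 - κ] (pois x1)) l - (R^[N2 - κ] (pois x2)) l =
      ((R^[N1 - κ] (pois x1)) l - (R^[N1 - κ] (pois x')) l) +
        ((R^[N1 - κ] (pois x')) l - (R^[N2 - κ] (pois x2)) l) := by ring
  rw [hsum]
  refine (abs_add_le _ _).trans ?_
  have hQQ : 2 * (Db * P + 5 / 4) * (4 * δ) = 3 * Q * δ := by rw [hQ]; ring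
  linarith

end Pool.Agent.Q224.MK
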