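import Pool.Agent.Q291.MK.Stm6
import Pool.Agent.Q224.MK.CMP

/-!
# Job CMU of project MK: comparison of a long orbit of a regular law with a Wilson orbit
-/

namespace Pool.Agent.Q224.MK

open Filter Topology Pool.Agent.Q291.MK

theorem E_pw (K : ℕ) (φ : ℕ → ℝ) : E (pw K) φ = φ K := by
  unfold E
  rw [tsum_eq_single K]
  · simp [pw]
  · intro k hk
    simp [pw, hk]

theorem mean_pw (K : ℕ) : mean (pw K) = K := by
  unfold mean
  rw [E_pw]

theorem am_pw (K : ℕ) : AM (pw K) where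
  nn k := by unfold pw; split_ifs <;> norm_num
  one := by
    unfold pw
    exact hasSum_ite_eq K 1
  mom q := by
    refine summable_of_ne_finset_zero (s := {K}) fun k hk => ?_
    have : k ≠ K := by simpa using hk
    simp [pw, this]

theorem cl_pw {C3 C8 C12 M e C : ℝ} (hC : Cst C3 C8 C12 M e C) {K : ℕ} (hK : M ≤ K) :
    Cl C3 C8 C12 (pw K) := by
  have hM := hC.hM
  have h3 := hC.h3
  have h8 := hC.h8
  have h12 := hC.h12
  have hm := mean_pw K
  have hK0 : (0 : ℝ) ≤ K := Nat.cast_nonneg K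
  refine { toAM := am_pw K, vr_le := ?_, k3_le := ?_, m8_le := ?_, m12_le := ?_ }
  · unfold vr
    rw [E_pw, hm]
    simp
  · unfold k3
    rw [E_pw, hm]
    simp only [sub_self, ne_eq, OfNat.ofNat_ne_zero, not_false_eq_true, zero_pow, abs_zero]
    positivity
  · unfold m8
    rw [E_pw, hm]
    simp only [sub_self, ne_eq, OfNat.ofNat_ne_zero, not_false_eq_true, zero_pow]
    positivity
  · unfold m12
    rw [E_pw, hm]
    simp only [sub_self, ne_eq, OfNat.ofNat_ne_zero, not_false_eq_true, zero_pow]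
    positivity

theorem t_CMU : P_MEM → P_BMON → P_BEX → P_CRN → P_CMU := by
  intro hMEM hBM hBEX _ C3 C8 C12 M e C hC
  obtain ⟨Dm, hDm, hMEM⟩ := hMEM C3 C8 C12 M e C hC
  obtain ⟨Db, hDb, hBM⟩ := hBM C3 C8 C12 M e C hC
  have hBEX := hBEX C3 C8 C12 M e C hC
  have hM := hC.hM
  have he := hC.he
  refine ⟨fun K hK => cl_pw hC hK, Dm + Db + 2, by linarith, fun m hm κ ε hε => ?_⟩
  have hm0 : 0 ≤ m := by linarith
  obtain ⟨P, hP⟩ : ∃ P : ℝ, P = m + 1 + 4 * κ := ⟨_, rfl⟩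
  have hκ0 : (0 : ℝ) ≤ κ := Nat.cast_nonneg κ
  have hP1 : 1 ≤ P := by rw [hP]; linarith
  obtain ⟨Q, hQ⟩ : ∃ Q : ℝ, Q = 2 * (Db * P + 5 / 4) * (4 / 3) := ⟨_, rfl⟩
  have hQ0 : 0 ≤ Q := by rw [hQ]; positivity
  obtain ⟨δ, hδ⟩ : ∃ δ : ℝ, δ = min (1 / 4) (ε / (3 * Q + 4)) := ⟨_, rfl⟩
  have hδ0 : 0 < δ := by rw [hδ]; positivity
  have hδ4 : δ ≤ 1 / 4 := by rw [hδ]; exact min_le_left _ _
  have hδε : (3 * Q + 4) * δ ≤ ε := by
    have h1 : δ ≤ ε / (3 * Q + 4) := by rw [hδ]; exact min_le_right _ _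
    rw [le_div_iff₀ (by positivity)] at h1
    linarith
  obtain ⟨J0, hJ0⟩ := eventually_atTop.1 (asym2 m P Dm δ κ hm0 (by linarith) (by linarith) hδ0)
  obtain ⟨J1, hJ1⟩ := eventually_atTop.1 (asym2 m P Dm δ 0 hm0 (by linarith) (by linarith) hδ0)
  obtain ⟨I1, hI1⟩ := eventually_atTop.1 (asym1 m)
  obtain ⟨I2, hI2⟩ := exists_nat_ge (Dm + 2)
  obtain ⟨I0, hI0⟩ : ∃ I0 : ℕ, I0 = I1 + I2 + J0 + J1 + κ + 2 := ⟨_, rfl⟩
  refine ⟨I0 * I0, δ, hδ0, fun N1 N2 x1 a0 hN0 hN12 hx1 hcl2 hm1 hm2 l => ?_⟩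
  -- the choice of `i` and `j`
  obtain ⟨i, hi⟩ : ∃ i : ℕ, i = Nat.sqrt N1 := ⟨_, rfl⟩
  have hi1 : i * i ≤ N1 := by rw [hi]; exact Nat.sqrt_le N1
  have hi2 : N1 < (i + 1) * (i + 1) := by rw [hi]; exact Nat.lt_succ_sqrt N1
  have hi3 : I0 ≤ i := by rw [hi]; exact Nat.le_sqrt.2 hN0
  have hmul : (I2 + J0 + J1 + κ + 2) * i ≤ i * i := Nat.mul_le_mul_right _ (by omega)
  have hmul2 : (I2 + J0 + J1 + κ + 2) * i = I2 * i + J0 * i + J1 * i + κ * i + 2 * i := by ring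
  have hipos : 0 < i := by omega
  have hJ0i : J0 ≤ J0 * i := Nat.le_mul_of_pos_right _ hipos
  have hJ1i : J1 ≤ J1 * i := Nat.le_mul_of_pos_right _ hipos
  have hκi : κ ≤ κ * i := Nat.le_mul_of_pos_right _ hipos
  obtain ⟨j, hj⟩ : ∃ j, N1 = i + 1 + j := ⟨N1 - (i + 1), by omega⟩
  obtain ⟨d, hd⟩ : ∃ d, N2 = N1 + d := ⟨N2 - N1, by omega⟩
  have hjJ0 : J0 ≤ j := by omega
  have hjJ1 : J1 ≤ j := by omega
  have hjκ : κ ≤ j := by omega
  have hjI : I2 * i ≤ j := by omega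
  have hiI1 : I1 ≤ i := by omega
  have hjI' : (i : ℝ) * Dm ≤ j := by
    have h1 : ((I2 * i : ℕ) : ℝ) ≤ j := by exact_mod_cast hjI
    push_cast at h1
    have h2 : (i : ℝ) * Dm ≤ i * I2 := mul_le_mul_of_nonneg_left (by linarith) (Nat.cast_nonneg i)
    linarith
  have hpow : m + 1 + 4 * (j : ℝ) ≤ 2 ^ i := by
    refine le_trans ?_ (hI1 i hiI1)
    have h1 : (j : ℝ) ≤ ((i : ℝ) + 1) ^ 2 := by
      have h2 : j ≤ (i + 1) * (i + 1) := by omega
      have h3 : (j : ℝ) ≤ (((i + 1) * (i + 1) : ℕ) : ℝ) := by exact_mod_cast h2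
      push_cast at h3
      linarith
    linarith
  -- the long orbit
  have hm1' := abs_le.1 hm1
  have hm2' := abs_le.1 hm2
  have ham2 := hcl2.toAM
  have hant2 := mean_anti ham2
  have hbig2 : M + Dm + Db + 1 ≤ mean (R^[N2] a0) := by linarith
  have hclit2 := cl_it hC hcl2 N2 (by linarith)
  obtain ⟨a, ha⟩ : ∃ a, a = R^[d + 1] a0 := ⟨_, rfl⟩
  have hra : ∀ n, R^[n] a = R^[n + (d + 1)] a0 := by
    intro n
    rw [ha, Function.iterate_add_apply R n (d + 1)]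
  have hcla : Cl C3 C8 C12 a := by rw [ha]; exact hclit2 (d + 1) (by omega)
  have hvra : vr a ≤ 2 / 5 * mean a := by
    rw [ha, Function.iterate_succ_apply']
    refine vr_small hC (hclit2 d (by omega)) ?_
    have := hant2 (by omega : d ≤ N2)
    simp only at this
    linarith
  obtain ⟨μ, hμ⟩ : ∃ μ, μ = mean (R^[i] a) := ⟨_, rfl⟩
  have hdrop : mean (R^[N2] a0) + j ≤ μ ∧ μ ≤ mean (R^[N2] a0) + 4 * j := by
    have hN2 : N2 = i + (d + 1) + j := by omega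
    rw [hμ, hra, hN2]
    refine drop hC hcl2 (i + (d + 1)) j ?_
    rw [← hN2]
    linarith
  have hμj : (j : ℝ) ≤ μ := by linarith [hdrop.1]
  have hμu : μ ≤ m + 1 + 4 * j := by linarith [hdrop.2, hm2'.2]
  have hj0 : (0 : ℝ) ≤ j := Nat.cast_nonneg j
  obtain ⟨x', hx'1, hx'2, _⟩ := hBEX μ (i + 1) (by linarith [hdrop.1])
  have hx'M : M ≤ x' := by linarith [hdrop.1]
  have hx' : 0 < x' := by linarith
  obtain ⟨b, hb⟩ : ∃ b, b = R^[1] (pois x') := ⟨_, rfl⟩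
  have hrb : ∀ n, R^[n] b = R^[n + 1] (pois x') := by
    intro n
    rw [hb, Function.iterate_add_apply R n 1]
  have hclp := hC.pois x' hx'M
  have hmx' : mean (pois x') = x' := (bPOIS x' hx'.le).2.1
  have hclb : Cl C3 C8 C12 b := by rw [hb]; exact hC.step _ hclp (by rw [hmx']; exact hx'M)
  have hvrb : vr b ≤ 2 / 5 * mean b := by rw [hb]; exact vr_small hC hclp (by rw [hmx']; exact hx'M)
  have heq : mean (R^[i] b) = mean (R^[i] a) := by rw [hrb, hx'2, hμ]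
  -- the levels of the long orbit
  have hlev : ∀ k : ℕ, k ≤ j → R^[i + (j - k)] a = R^[N2 - k] a0 ∧
      R^[i + (j - k)] b = R^[N1 - k] (pois x') := by
    intro k hk
    constructor
    · rw [hra]
      congr 2
      omega
    · rw [hrb]
      congr 2
      omega
  have hlevm : ∀ k : ℕ, k ≤ j → M + Dm + Db + 1 ≤ mean (R^[N2 - k] a0) := by
    intro k hk
    have := hant2 (Nat.sub_le N2 k)
    simp only at this
    linarith
  have hmem : ∀ k : ℕ, k ≤ j → |mean (R^[N1 - k] (pois x')) - mean (R^[N2 - k] a0)| ≤ Dm / √μ ∧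
      Fd e (R^[N2 - k] a0) (R^[N1 - k] (pois x')) (Dm * (√μ / 2 ^ (j - k) +
        √(mean (R^[N2 - k] a0)) / √μ)) := by
    intro k hk
    obtain ⟨e1, e2⟩ := hlev k hk
    have h := hMEM a b i (j - k) hcla hclb hvra hvrb heq (by rw [e1]; linarith [hlevm k hk])
      (by rw [← hμ]; linarith) (by rw [← hμ]; linarith)
    rw [e1, e2, ← hμ] at h
    exact h
  have hfinal := (hmem 0 (Nat.zero_le _)).1
  rw [Nat.sub_zero, Nat.sub_zero] at hfinal
  have hasy := hJ0 j hjJ0 μ hμj hμu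
  have hfinal' := abs_le.1 (hfinal.trans hasy.1)
  -- comparison of the orbit of x' with the long orbit at level κ
  obtain ⟨hκ1, hκ2⟩ := hmem κ hjκ
  have hmκ : mean (R^[N2 - κ] a0) ≤ P := by
    have hN2κ : N2 - κ + κ = N2 := by omega
    have h := (drop hC hcl2 (N2 - κ) κ (by rw [hN2κ]; linarith)).2
    rw [hN2κ] at h
    rw [hP]
    linarith
  have hsqκ : √(mean (R^[N2 - κ] a0)) ≤ P := by
    have h7 : √(mean (R^[N2 - κ] a0)) ≤ mean (R^[N2 - κ] a0) :=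
      Real.sqrt_le_self_iff.2 (Or.inr (by linarith [hlevm κ hjκ]))
    linarith
  have hr : Dm * (√μ / 2 ^ (j - κ) + √(mean (R^[N2 - κ] a0)) / √μ) ≤ δ := by
    refine le_trans ?_ hasy.2
    refine mul_le_mul_of_nonneg_left ?_ (by linarith)
    exact add_le_add le_rfl (div_le_div_of_nonneg_right hsqκ (Real.sqrt_nonneg _))
  have hpt := fd_pt he.le (am_it ham2 (N2 - κ)) (by linarith [hlevm κ hjκ]) hκ2 l
  have hpt2 : |(R^[N1 - κ] (pois x')) l - (R^[N2 - κ] a0) l| ≤ 4 * δ := by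
    have := hκ1.trans hasy.1
    linarith
  -- comparison of the orbits of x' and x1
  have ham1 := (bPOIS x1 hx1.le).1
  have hant1 := mean_anti ham1
  have hmx1 := (bPOIS x1 hx1.le).2.1
  have hx1M : M ≤ x1 := by
    have := hant1 (Nat.zero_le N1)
    simp only [Function.iterate_zero, id_eq] at this
    rw [hmx1] at this
    linarith
  have hmκ' : ∀ p : ℝ, M ≤ p → M ≤ mean (R^[N1] (pois p)) → mean (R^[N1] (pois p)) ≤ m + 1 →
      mean (R^[N1 - κ] (pois p)) ≤ P := by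
    intro p hp1 hp2 hp3
    have hN1κ : N1 - κ + κ = N1 := by omega
    have h := (drop hC (hC.pois p hp1) (N1 - κ) κ (by rw [hN1κ]; exact hp2)).2
    rw [hN1κ] at h
    rw [hP]
    linarith
  have hpt3 : |(R^[N1 - κ] (pois x1)) l - (R^[N1 - κ] (pois x')) l| ≤ 2 * (Db * P + 5 / 4) * (4 * δ) := by
    rcases le_total x' x1 with h | h
    · exact near hC hDb hBM hx' h hP1 hδ4 N1 κ (by linarith) (by linarith)
        (hmκ' x' hx'M (by linarith) (by linarith)) l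
    · rw [abs_sub_comm]
      exact near hC hDb hBM hx1 h hP1 hδ4 N1 κ (by linarith) (by linarith)
        (hmκ' x1 hx1M (by linarith) (by linarith)) l
  have hsum : (R^[N1 - κ] (pois x1)) l - (R^[N2 - κ] a0) l =
      ((R^[N1 - κ] (pois x1)) l - (R^[N1 - κ] (pois x')) l) +
        ((R^[N1 - κ] (pois x')) l - (R^[N2 - κ] a0) l) := by ring
  rw [hsum]
  refine (abs_add_le _ _).trans ?_
  have hQQ : 2 * (Db * P + 5 / 4) * (4 * δ) = 3 * Q * δ := by rw [hQ]; ring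
  linarith

end Pool.Agent.Q224.MK
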