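import Pool.Agent.Q291.MK.Stm6
import Pool.Agent.Q224.MK.CMU

/-!
# Job CA2 of project MK: convergence to a unique scaling limit for two bare actions
-/

namespace Pool.Agent.Q224.MK

open Filter Topology Pool.Agent.Q291.MK Pool.Agent.Q291.MK.BetaAux Pool.Agent.Q291.MK.LimAux

/-- the family indexed by all levels, given the limits at the nonpositive levels -/
noncomputable def ext (L : ℕ → ℕ → ℝ) (k : ℤ) : ℕ → ℝ :=
  if 0 ≤ k then R^[k.toNat] (L 0) else L k.natAbs

theorem ext_lim {L : ℕ → ℕ → ℝ} (hL : Law (L 0)) {ν : ℕ → ℕ} {A : ℕ → ℕ → ℝ} (hA : ∀ l, AM (A l))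
    (h : ∀ κ i, Tendsto (fun l => (R^[ν l - κ] (A l)) i) atTop (𝓝 (L κ i))) (k : ℤ) (i : ℕ) :
    Tendsto (fun l => (R^[((ν l : ℤ) + k).toNat] (A l)) i) atTop (𝓝 (ext L k i)) := by
  unfold ext
  split_ifs with hk
  · have h1 := cont_iter bCONT (a := fun l => R^[ν l] (A l)) (fun l => (am_it (hA l) (ν l)).toLaw) hL
      (fun j => by simpa using h 0 j) k.toNat i
    refine h1.congr fun l => ?_
    have e : ((ν l : ℤ) + k).toNat = k.toNat + ν l := by omega
    rw [e, Function.iterate_add_apply]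
  · refine (h k.natAbs i).congr fun l => ?_
    have e : ((ν l : ℤ) + k).toNat = ν l - k.natAbs := by omega
    rw [e]

theorem tend_of_close {f g : ℕ → ℝ} {c : ℝ} (hg : Tendsto g atTop (𝓝 c))
    (h : ∀ ε : ℝ, 0 < ε → ∀ᶠ l in atTop, |f l - g l| ≤ ε) : Tendsto f atTop (𝓝 c) := by
  have h1 : Tendsto (fun l => f l - g l) atTop (𝓝 0) := by
    rw [Metric.tendsto_atTop]
    intro ε hε
    obtain ⟨N, hN⟩ := eventually_atTop.1 (h (ε / 2) (by linarith))
    refine ⟨N, fun n hn => ?_⟩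
    rw [Real.dist_eq, sub_zero]
    exact (hN n hn).trans_lt (by linarith)
  have h2 := h1.add hg
  rw [zero_add] at h2
  exact h2.congr fun l => by ring

theorem t_CA2 : P_CST → P_CMP → P_CMU → P_BEX → P_CA2 := by
  intro hCST hCMP hCMU hBEX
  obtain ⟨C3, C8, C12, M, e, C, hC⟩ := hCST
  obtain ⟨D1, hD1, hCMP⟩ := hCMP C3 C8 C12 M e C hC
  obtain ⟨hpw, D2, hD2, hCMU⟩ := hCMU C3 C8 C12 M e C hC
  have hBEX := hBEX C3 C8 C12 M e C hC
  have hM := hC.hM
  refine ⟨M + D1 + D2 + 1, by linarith, fun m hm => ?_⟩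
  have hm0 : 0 < m := by linarith
  have hex : ∀ N : ℕ, ∃ x : ℝ, 0 < x ∧ mean (R^[N] (pois x)) = m ∧
      ∀ y : ℝ, 0 < y → mean (R^[N] (pois y)) = m → y = x := by
    intro N
    obtain ⟨x, h1, h2, h3⟩ := hBEX m N (by linarith)
    exact ⟨x, by linarith, h2, h3⟩
  refine ⟨hex, ?_⟩
  choose X hX0 hXm _ using hex
  -- the reference sequence converges
  have hcau : ∀ κ i : ℕ, ∃ c : ℝ, Tendsto (fun N => (R^[N - κ] (pois (X N))) i) atTop (𝓝 c) := by
    intro κ i
    refine cauchySeq_tendsto_of_complete (Metric.cauchySeq_iff'.2 fun ε hε => ?_)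
    obtain ⟨N0, δ, hδ, h⟩ := hCMP m (by linarith) κ (ε / 2) (by linarith)
    refine ⟨N0, fun n hn => ?_⟩
    have h1 := h N0 n (X N0) (X n) le_rfl hn (hX0 _) (hX0 _) (by rw [hXm, sub_self, abs_zero]; exact hδ.le)
      (by rw [hXm, sub_self, abs_zero]; exact hδ.le) i
    rw [dist_comm, Real.dist_eq]
    exact h1.trans_lt (by linarith)
  choose L hL using hcau
  have hclN : ∀ N, M ≤ X N := by
    intro N
    have h1 := mean_anti (bPOIS (X N) (hX0 N).le).1 (Nat.zero_le N)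
    simp only [Function.iterate_zero, id_eq] at h1
    rw [hXm, (bPOIS (X N) (hX0 N).le).2.1] at h1
    linarith
  have hLlaw : Law (L 0) := by
    refine (bTIGHT (fun N => R^[N] (pois (X N))) (L 0) (m + m ^ 2)
      (fun N => am_it (bPOIS (X N) (hX0 N).le).1 N) (fun N => ?_) (fun i => by simpa using hL 0 i)).1
    have h1 := cl_it hC (hC.pois _ (hclN N)) N (by rw [hXm]; linarith) N le_rfl
    have h2 := vr_eq h1.toAM
    have h3 := h1.vr_le
    rw [hXm] at h2 h3
    linarith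
  refine ⟨ext L, fun ν x hν hx hlim => ?_, fun ν K hν hlim => ?_⟩
  · refine ext_lim hLlaw (fun l => (bPOIS (x l) (hx l).le).1) fun κ i => ?_
    refine tend_of_close ((hL κ i).comp hν) fun ε hε => ?_
    obtain ⟨N0, δ, hδ, h⟩ := hCMP m (by linarith) κ ε hε
    have h1 : ∀ᶠ l in atTop, |mean (R^[ν l] (pois (x l))) - m| ≤ δ := by
      filter_upwards [Metric.tendsto_nhds.1 hlim δ hδ] with l hl
      rw [Real.dist_eq] at hl
      exact hl.le
    filter_upwards [h1, hν.eventually_ge_atTop N0] with l hl1 hl2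
    exact h (ν l) (ν l) (x l) (X (ν l)) hl2 le_rfl (hx l) (hX0 _) hl1
      (by rw [hXm, sub_self, abs_zero]; exact hδ.le) i
  · refine ext_lim hLlaw (fun l => am_pw (K l)) fun κ i => ?_
    refine tend_of_close ((hL κ i).comp hν) fun ε hε => ?_
    obtain ⟨N0, δ, hδ, h⟩ := hCMU m (by linarith) κ ε hε
    have h1 : ∀ᶠ l in atTop, |mean (R^[ν l] (pw (K l))) - m| ≤ δ := by
      filter_upwards [Metric.tendsto_nhds.1 hlim δ hδ] with l hl
      rw [Real.dist_eq] at hl
      exact hl.le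
    have h2 : ∀ᶠ l in atTop, M < mean (R^[ν l] (pw (K l))) :=
      hlim.eventually (lt_mem_nhds (by linarith))
    filter_upwards [h1, h2, hν.eventually_ge_atTop N0] with l hl1 hl3 hl2
    have hK : M ≤ (K l : ℝ) := by
      have h3 := mean_anti (am_pw (K l)) (Nat.zero_le (ν l))
      simp only [Function.iterate_zero, id_eq] at h3
      rw [mean_pw] at h3
      linarith
    rw [abs_sub_comm]
    exact h (ν l) (ν l) (X (ν l)) (pw (K l)) hl2 le_rfl (hX0 _) (hpw (K l) hK)
      (by rw [hXm, sub_self, abs_zero]; exact hδ.le) hl1 i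

end Pool.Agent.Q224.MK
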