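import Pool.Agent.Q291.MK.Stm4

/-!
# Job DIFF of project MK: from the response to finite differences
-/

namespace Pool.Agent.Q224.MK

open Filter Topology Pool.Agent.Q291.MK

/-- the curve of the iterates -/
theorem crv_iter (hT : P_CRT) (hS : P_CRS) {a h : ℝ → ℕ → ℝ} (hc : Crv a h) (n : ℕ) :
    Crv (fun s => R^[n] (a s)) (fun s => hit (a s) (h s) n) := by
  induction n with
  | zero => exact hc
  | succ n ih =>
    have h1 := hT _ _ ih
    have h2 := hT _ _ h1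
    have h3 := hS _ _ h2
    have h4 := hS _ _ h3
    have e1 : (fun s => R^[n + 1] (a s)) = fun s => S (S (T (T (R^[n] (a s))))) := by
      funext s
      rw [Function.iterate_succ_apply']
      rfl
    rw [e1]
    exact h4

theorem tst_zero (e m : ℝ) (he : 0 ≤ e) (hm : 0 < m) : Tst e m (fun _ => 0) := by
  refine ⟨PB.const 0, fun J => ?_⟩
  have h1 : dl (dl fun _ => 0) J = 0 := by
    unfold dl
    simp
  rw [h1, abs_zero]
  unfold wt
  have h2 : 0 ≤ ((J : ℝ) - m) ^ 10 / m ^ 5 := by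
    have : 0 ≤ ((J : ℝ) - m) ^ 10 := by
      rw [show (10 : ℕ) = 2 * 5 by norm_num, pow_mul]
      positivity
    positivity
  have := mul_nonneg he h2
  linarith

theorem nr_nonneg {e : ℝ} {a h : ℕ → ℝ} {c ρ : ℝ} (he : 0 ≤ e) (hm : 0 < mean a) (hn : Nr e a h c ρ) : 0 ≤ ρ := by
  have h1 := hn.bd _ (tst_zero e (mean a) he hm)
  exact (abs_nonneg _).trans h1

theorem dl_half (φ : ℕ → ℝ) : dl (fun k => φ k / 2) = fun k => (1 / 2 : ℝ) * dl φ k := by
  funext k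
  unfold dl
  ring

theorem t_DIFF : P_CRE → P_CRT → P_CRS → P_CRL → P_CRN → P_DIFF := by
  intro hE hT hS hL hN C3 C8 C12 M e C hC
  obtain ⟨D', hD', _, _, _, hN4⟩ := hN C3 C8 C12 M e C hC
  have hC1 := hC.hC
  refine ⟨3 + 2 * (C + 1) + D' + D' ^ 2, by nlinarith [sq_nonneg D'], ?_⟩
  obtain ⟨D, hD⟩ : ∃ D, D = 3 + 2 * (C + 1) + D' + D' ^ 2 := ⟨_, rfl⟩
  rw [← hD]
  have hD1 : 1 ≤ D := by rw [hD]; nlinarith [sq_nonneg D']
  have hDD : D' ^ 2 ≤ D := by rw [hD]; linarith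
  intro a b ρ K N ha hb hMa hab hva hvb hNr hK hmean
  have hM10 := hC.hM
  have hma : 0 < mean a := by linarith
  obtain ⟨c, hc⟩ : ∃ c, c = mean b - mean a := ⟨_, rfl⟩
  rw [← hc] at hab hNr hK
  -- the segment
  obtain ⟨A, hA⟩ : ∃ A : ℝ → ℕ → ℝ, A = fun s k => (1 - s) * a k + s * b k := ⟨_, rfl⟩
  obtain ⟨h, hh⟩ : ∃ h : ℕ → ℝ, h = fun k => b k - a k := ⟨_, rfl⟩
  have hA0 : A 0 = a := by rw [hA]; funext k; ring
  have hA1 : A 1 = b := by rw [hA]; funext k; ring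
  have hcrv : Crv A (fun _ => h) := by
    rw [hA, hh]
    exact hL a b ha.toAM hb.toAM
  have hNr' : ∀ s : ℝ, 0 ≤ s → s ≤ 1 → Nr e (A s) h c ρ := by
    rw [hA, hh]
    exact hNr
  have hcl : ∀ s : ℝ, 0 ≤ s → s ≤ 1 → Cl (C3 + 3) (C8 + 1) (C12 + 1) (A s) := by
    rw [hA]
    exact hC.mix a b ha hb hMa (by rw [← hc]; exact hab) hva hvb
  have hρ : 0 ≤ ρ := by
    have h1 := hNr' 0 le_rfl zero_le_one
    rw [hA0] at h1
    exact nr_nonneg hC.he.le hma h1
  have hK0 : 0 ≤ K := by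
    rw [hK]
    positivity
  have hcK : 2 * |c| ≤ K := by
    rw [hK]
    have : 0 ≤ 2 * C * ((|c| + ρ) / mean a) := by positivity
    linarith
  have hcK2 : 2 * C * ((|c| + ρ) / mean a) ≤ K := by
    rw [hK]
    have := abs_nonneg c
    linarith
  have hconv : Convex ℝ (Set.Icc (0 : ℝ) 1) := convex_Icc 0 1
  have h0mem : (0 : ℝ) ∈ Set.Icc (0 : ℝ) 1 := ⟨le_rfl, zero_le_one⟩
  -- derivative of the expectations along the curve of iterates
  have hder : ∀ (n : ℕ) (φ : ℕ → ℝ), PB φ → ∀ s ∈ Set.Icc (0 : ℝ) 1,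
      HasDerivWithinAt (fun s => E (R^[n] (A s)) φ) (E (hit (A s) h n) φ) (Set.Icc 0 1) s := by
    intro n φ hφ s hs
    exact (hE _ _ (crv_iter hT hS hcrv n) s hs).2 φ hφ
  have hmA : ∀ s ∈ Set.Icc (0 : ℝ) 1, |mean (A s) - mean a| ≤ 3 := by
    intro s hs
    have h1 := hconv.norm_image_sub_le_of_norm_hasDerivWithin_le (C := |c|)
      (fun t ht => hder 0 (fun k => (k : ℝ)) PB.id t ht) (fun t ht => by
        rw [Real.norm_eq_abs]
        exact le_of_eq (congrArg abs (hNr' t ht.1 ht.2).mn)) h0mem hs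
    have h2 : E (R^[0] (A s)) (fun k => (k : ℝ)) = mean (A s) := rfl
    have h3 : E (R^[0] (A 0)) (fun k => (k : ℝ)) = mean a := by rw [hA0]; rfl
    simp only [h2, h3] at h1
    rw [Real.norm_eq_abs, Real.norm_eq_abs, sub_zero, abs_of_nonneg hs.1] at h1
    have h4 : |c| * s ≤ |c| * 1 := mul_le_mul_of_nonneg_left hs.2 (abs_nonneg c)
    linarith
  have hmA2 : ∀ s ∈ Set.Icc (0 : ℝ) 1, mean a / 2 ≤ mean (A s) := by
    intro s hs
    have := abs_le.1 (hmA s hs)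
    linarith
  have hquot : ∀ s ∈ Set.Icc (0 : ℝ) 1, C * ((|c| + ρ) / mean (A s)) ≤ 2 * C * ((|c| + ρ) / mean a) := by
    intro s hs
    have h1 := hmA2 s hs
    have h2 : (|c| + ρ) / mean (A s) ≤ (|c| + ρ) / (mean a / 2) :=
      div_le_div_of_nonneg_left (by positivity) (by linarith) h1
    have h3 : (|c| + ρ) / (mean a / 2) = 2 * ((|c| + ρ) / mean a) := by field_simp
    rw [h3] at h2
    have h4 := mul_le_mul_of_nonneg_left h2 (by linarith : (0 : ℝ) ≤ C)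
    linarith
  have hKK : K ≤ D * (1 + K) ^ 2 := by nlinarith [sq_nonneg K]
  -- the response along the segment, when the first `n` steps are known to be at weak coupling
  have key : ∀ n ≤ N, (∀ i < n, ∀ s ∈ Set.Icc (0 : ℝ) 1, |mean (R^[i] (A s)) - mean (R^[i] a)| ≤ K) →
      ∀ s ∈ Set.Icc (0 : ℝ) 1, Cl (C3 + 3) (C8 + 1) (C12 + 1) (R^[n] (A s)) ∧ ∃ c' ρ' : ℝ,
        Nr e (R^[n] (A s)) (hit (A s) h n) c' ρ' ∧ |c'| ≤ K ∧ ρ' ≤ ρ / 2 ^ n + (C + 1) * K := by
    intro n hn hi s hs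
    have h1 : ∀ i < n, M ≤ mean (R^[i] (A s)) := by
      intro i hin
      have h2 := hi i hin s hs
      have h3 := hmean i (by omega)
      have h4 := abs_le.1 h2
      linarith
    obtain ⟨h2, c', ρ', h3, h4, h5, _⟩ := hC.resp (A s) h c ρ n (hcl s hs.1 hs.2) h1 (hNr' s hs.1 hs.2) n le_rfl
    refine ⟨h2, c', ρ', h3, ?_, ?_⟩
    · have := hquot s hs
      rw [hK]
      linarith
    · have h6 := hquot s hs
      have h7 : C * (|c| + (|c| + ρ) / mean (A s)) ≤ (C + 1) * K := by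
        rw [mul_add]
        have h8 : C * |c| ≤ C * K := mul_le_mul_of_nonneg_left (by have := abs_nonneg c; linarith) (by linarith)
        linarith
      linarith
  -- the claim on the means
  have hclaim : ∀ n ≤ N, ∀ s ∈ Set.Icc (0 : ℝ) 1, |mean (R^[n] (A s)) - mean (R^[n] a)| ≤ K := by
    intro n
    induction n using Nat.strong_induction_on with
    | _ n ih =>
      intro hn s hs
      have hi : ∀ i < n, ∀ s ∈ Set.Icc (0 : ℝ) 1, |mean (R^[i] (A s)) - mean (R^[i] a)| ≤ K :=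
        fun i hin => ih i hin (by omega)
      have h1 := hconv.norm_image_sub_le_of_norm_hasDerivWithin_le (C := K)
        (fun t ht => hder n (fun k => (k : ℝ)) PB.id t ht) (fun t ht => by
          obtain ⟨_, c', ρ', h3, h4, _⟩ := key n hn hi t ht
          rw [Real.norm_eq_abs, h3.mn]
          exact h4) h0mem hs
      have h2 : E (R^[n] (A s)) (fun k => (k : ℝ)) = mean (R^[n] (A s)) := rfl
      have h3 : E (R^[n] (A 0)) (fun k => (k : ℝ)) = mean (R^[n] a) := by rw [hA0]; rfl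
      simp only [h2, h3] at h1
      rw [Real.norm_eq_abs, Real.norm_eq_abs, sub_zero, abs_of_nonneg hs.1] at h1
      have h4 : K * s ≤ K * 1 := mul_le_mul_of_nonneg_left hs.2 hK0
      linarith
  intro n hn
  have h1mem : (1 : ℝ) ∈ Set.Icc (0 : ℝ) 1 := ⟨zero_le_one, le_rfl⟩
  have hfirst := hclaim n hn 1 h1mem
  rw [hA1] at hfirst
  refine ⟨hfirst, fun hbig φ hφ => ?_⟩
  obtain ⟨μ, hμ⟩ : ∃ μ, μ = mean (R^[n] a) := ⟨_, rfl⟩
  rw [← hμ] at hbig hφ ⊢
  have hkey := key n hn (fun i hi => hclaim i (by omega))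
  have hμM : M ≤ μ := by
    have : 0 ≤ D * (1 + K) ^ 2 := by positivity
    linarith
  have hμ1 : 1 ≤ μ := by linarith
  have hsq1 : 1 ≤ √μ := Real.one_le_sqrt.2 hμ1
  have hKs : K ≤ √μ / D' := by
    rw [le_div_iff₀ hD']
    refine Real.le_sqrt_of_sq_le ?_
    have h1 : (K * D') ^ 2 ≤ D * (1 + K) ^ 2 := by
      rw [mul_pow, mul_comm]
      refine mul_le_mul hDD (pow_le_pow_left₀ hK0 (by linarith) 2) (sq_nonneg _) (by linarith)
    linarith
  have hclA : Cl (C3 + 3) (C8 + 1) (C12 + 1) (R^[n] a) := by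
    have := (hkey 0 h0mem).1
    rwa [hA0] at this
  obtain ⟨κ, hκ⟩ : ∃ κ, κ = E (R^[n] a) (dl φ) := ⟨_, rfl⟩
  rw [← hκ]
  have hbound : ∀ s ∈ Set.Icc (0 : ℝ) 1, ‖E (hit (A s) h n) φ - κ * E (hit (A s) h n) (fun k => (k : ℝ))‖ ≤
      D * (ρ / 2 ^ n + K * √μ) := by
    intro s hs
    obtain ⟨h1, c', ρ', h3, h4, h5⟩ := hkey s hs
    have h6 := hclaim n hn s hs
    obtain ⟨h7, h8⟩ := hN4 (R^[n] a) (R^[n] (A s)) hclA h1 (by rw [← hμ]; exact hμM)
      (by rw [← hμ]; rw [← hμ] at h6; exact h6.trans hKs) φ (by rw [← hμ]; exact hφ)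
    rw [← hμ, ← hκ] at h8
    have h9 := h3.bd _ h7
    rw [dl_half, E_const_mul] at h9
    have h10 : E (hit (A s) h n) (fun k => φ k / 2) = (1 / 2 : ℝ) * E (hit (A s) h n) φ := by
      rw [← E_const_mul]
      congr 1
      funext k
      ring
    rw [h10] at h9
    rw [Real.norm_eq_abs, h3.mn]
    have h11 : |E (hit (A s) h n) φ - c' * E (R^[n] (A s)) (dl φ)| ≤ 2 * ρ' := by
      have : E (hit (A s) h n) φ - c' * E (R^[n] (A s)) (dl φ) =
          2 * (1 / 2 * E (hit (A s) h n) φ - c' * (1 / 2 * E (R^[n] (A s)) (dl φ))) := by ring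
      rw [this, abs_mul, abs_two]
      linarith
    have h12 : |c' * (E (R^[n] (A s)) (dl φ) - κ)| ≤ K * (D' * √μ) := by
      rw [abs_mul]
      exact mul_le_mul h4 h8 (abs_nonneg _) hK0
    have h13 : E (hit (A s) h n) φ - κ * c' = (E (hit (A s) h n) φ - c' * E (R^[n] (A s)) (dl φ)) +
        c' * (E (R^[n] (A s)) (dl φ) - κ) := by ring
    rw [h13]
    refine (abs_add_le _ _).trans ?_
    have h14 : 0 ≤ ρ / 2 ^ n := by positivity
    have h15 : K ≤ K * √μ := le_mul_of_one_le_right hK0 hsq1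
    have h16 : D * (ρ / 2 ^ n + K * √μ) = (2 * (ρ / 2 ^ n) + 2 * (C + 1) * (K * √μ) + D' * (K * √μ)) +
        ((1 + 2 * (C + 1) + D' + D' ^ 2) * (ρ / 2 ^ n) + (3 + D' ^ 2) * (K * √μ)) := by
      rw [hD]
      ring
    have h17 : 0 ≤ (1 + 2 * (C + 1) + D' + D' ^ 2) * (ρ / 2 ^ n) + (3 + D' ^ 2) * (K * √μ) := by positivity
    have h18 : 2 * (C + 1) * K ≤ 2 * (C + 1) * (K * √μ) :=
      mul_le_mul_of_nonneg_left h15 (by linarith)
    rw [h16]
    linarith
  have hφb : PB φ := hφ.pb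
  have hfin := hconv.norm_image_sub_le_of_norm_hasDerivWithin_le (C := D * (ρ / 2 ^ n + K * √μ))
    (f := fun s => E (R^[n] (A s)) φ - κ * E (R^[n] (A s)) (fun k => (k : ℝ)))
    (fun t ht => (hder n φ hφb t ht).sub ((hder n (fun k => (k : ℝ)) PB.id t ht).const_mul κ))
    hbound h0mem h1mem
  rw [sub_zero, norm_one, mul_one, Real.norm_eq_abs] at hfin
  simp only [hA0, hA1] at hfin
  refine le_trans (le_of_eq ?_) hfin
  congr 1
  show E (R^[n] b) φ - E (R^[n] a) φ - (mean (R^[n] b) - μ) * κ =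
    E (R^[n] b) φ - κ * mean (R^[n] b) - (E (R^[n] a) φ - κ * mean (R^[n] a))
  rw [← hμ]
  ring

end Pool.Agent.Q224.MK
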