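import Pool.Agent.Q291.MK.Stm6
import Pool.Agent.Q291.MK.Base

/-!
# Job WA of project MK: the Wilson loop at weak coupling
-/

namespace Pool.Agent.Q224.MK

open Filter Topology Pool.Agent.Q291.MK Pool.Agent.Q291.MK.BetaAux Pool.Agent.Q291.MK.LimAux

theorem t_WA : P_WA := by
  intro C3 C8
  obtain ⟨D, hD, hR⟩ := bRHO
  refine ⟨12 * (36 + 114 * D * |C8|), 18 + 12 * D + 3, by positivity, by linarith, fun a ha hm => ?_⟩
  have hA := ha.toAM
  obtain ⟨μ, hμ⟩ : ∃ μ, μ = mean a := ⟨_, rfl⟩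
  rw [← hμ] at hm ⊢
  have hμ18 : 18 ≤ μ := by linarith
  have hμ0 : 0 < μ := by linarith
  obtain ⟨ν, hν⟩ : ∃ ν, ν = 2 / 3 * μ := ⟨_, rfl⟩
  obtain ⟨I0, c0, hI0, hc0, hall, hbig⟩ := hR ν (by linarith)
  have hν10 : 10 ≤ ν := by linarith
  have hν0 : 0 < ν := by linarith
  have hνD : 8 * D + 2 ≤ ν := by linarith
  have hx : PB (fun k => (k : ℝ) - μ) := PB.id.sub (PB.const μ)
  -- the value of `I` near `2 ν`
  obtain ⟨n0, hn0⟩ : ∃ n0 : ℕ, n0 = ⌈2 * ν⌉₊ := ⟨_, rfl⟩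
  have hn1 : 2 * ν ≤ n0 := by rw [hn0]; exact Nat.le_ceil _
  have hn2 : (n0 : ℝ) < 2 * ν + 1 := by rw [hn0]; exact Nat.ceil_lt_add_one (by linarith)
  have hIn0 : 1 / 2 * I0 ≤ I n0 := by
    have h1 := (hbig n0 (by linarith)).2
    obtain ⟨t, ht⟩ : ∃ t, t = (n0 : ℝ) - 2 * ν := ⟨_, rfl⟩
    have ht0 : 0 ≤ t := by linarith
    have ht1 : t ≤ 1 := by linarith
    rw [← ht, abs_of_nonneg ht0] at h1
    have h2 := (abs_le.1 h1).1
    have h3 := (abs_le.1 hc0).1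
    have h4 : t / ν ≤ 1 / ν := div_le_div_of_nonneg_right ht1 hν0.le
    have h5 : t ^ 3 / ν ^ 3 ≤ 1 / ν := by
      rw [div_le_div_iff₀ (by positivity) hν0]
      have h51 : t ^ 3 ≤ 1 := pow_le_one₀ ht0 ht1
      have h52 : ν ≤ ν ^ 3 := le_self_pow₀ (by linarith) (by norm_num)
      have h53 : t ^ 3 * ν ≤ 1 * ν := mul_le_mul_of_nonneg_right h51 hν0.le
      linarith
    have h61 : ν ≤ ν ^ 2 := le_self_pow₀ (by linarith) (by norm_num)
    have h6 : t / ν ^ 2 ≤ 1 / ν := by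
      rw [div_le_div_iff₀ (by positivity) hν0]
      have h63 : t * ν ≤ 1 * ν := mul_le_mul_of_nonneg_right ht1 hν0.le
      linarith
    have h7 : 1 / ν ^ 2 ≤ 1 / ν := one_div_le_one_div_of_le hν0 h61
    have h8 : D * (t ^ 3 / ν ^ 3 + t / ν ^ 2 + 1 / ν ^ 2) ≤ D * (3 * (1 / ν)) :=
      mul_le_mul_of_nonneg_left (by linarith) hD.le
    have h9 : 0 ≤ 15 / 32 * (t / ν) ^ 2 := by positivity
    have h10 : D / ν = D * (1 / ν) := by ring
    have h11 : (4 * D + 1) * (1 / ν) ≤ 1 / 2 := by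
      rw [mul_one_div, div_le_iff₀ hν0]
      linarith
    have h12 : 1 / 2 ≤ I n0 / I0 := by
      have h13 : (4 * D + 1) * (1 / ν) = 3 * (D * (1 / ν)) + D * (1 / ν) + 1 / ν := by ring
      have h14 : 0 < 1 / ν := by positivity
      have h15 : D * (3 * (1 / ν)) = 3 * (D * (1 / ν)) := by ring
      linarith
    rwa [le_div_iff₀ hI0] at h12
  -- the lower bound for `E I`
  have hvr : vr a ≤ μ := by rw [hμ]; exact ha.vr_le
  have hEI : I0 / 4 ≤ E a I := by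
    have h1 : ∀ k : ℕ, 1 / 2 * I0 + (-(9 / 2 * I0 / μ ^ 2)) * ((k : ℝ) - μ) ^ 2 ≤ I k := by
      intro k
      have hp : 0 ≤ 9 / 2 * I0 / μ ^ 2 * ((k : ℝ) - μ) ^ 2 := by positivity
      rcases le_or_gt k n0 with h | h
      · have := I_anti h
        linarith
      · have h2 : (n0 : ℝ) ≤ k := by exact_mod_cast h.le
        have h3 : μ / 3 ≤ (k : ℝ) - μ := by linarith
        have h4 : (μ / 3) ^ 2 ≤ ((k : ℝ) - μ) ^ 2 := pow_le_pow_left₀ (by positivity) h3 2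
        have h5 : 9 / 2 * I0 / μ ^ 2 * (μ / 3) ^ 2 ≤ 9 / 2 * I0 / μ ^ 2 * ((k : ℝ) - μ) ^ 2 :=
          mul_le_mul_of_nonneg_left h4 (by positivity)
        have h6 : 9 / 2 * I0 / μ ^ 2 * (μ / 3) ^ 2 = 1 / 2 * I0 := by field_simp; ring
        have := I_pos k
        linarith
    have h2 := hA.E_mono ((PB.const (1 / 2 * I0)).add ((PB.const (-(9 / 2 * I0 / μ ^ 2))).mul (hx.pow 2)))
      PB.I h1
    rw [hA.E_add (PB.const _) ((PB.const _).mul (hx.pow 2)), hA.toLaw.E_const, E_const_mul] at h2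
    have h3 : E a (fun k => ((k : ℝ) - μ) ^ 2) = vr a := by rw [hμ]; rfl
    rw [h3] at h2
    refine le_trans ?_ h2
    have h4 : 9 / 2 * I0 / μ ^ 2 * vr a ≤ 9 / 2 * I0 / μ ^ 2 * μ :=
      mul_le_mul_of_nonneg_left hvr (by positivity)
    have h5 : 9 / 2 * I0 / μ ^ 2 * μ = 9 / 2 * I0 / μ := by field_simp
    have h6 : 9 / 2 * I0 / μ ≤ I0 / 4 := by
      rw [div_le_iff₀ hμ0]
      nlinarith
    linarith
  have hEI0 : 0 < E a I := lt_of_lt_of_le (by positivity) hEI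
  -- `1 - W`
  have hinv : PB (fun k => 1 / ((k : ℝ) + 3)) := (PB.const 1).of_le fun k => by
    have h0 : (0 : ℝ) ≤ k := Nat.cast_nonneg k
    rw [abs_of_nonneg (by positivity), div_le_one (by positivity)]
    linarith
  have hfr : PB (fun k => (k : ℝ) / ((k : ℝ) + 3)) := (PB.const 1).of_le fun k => by
    have h0 : (0 : ℝ) ≤ k := Nat.cast_nonneg k
    rw [abs_of_nonneg (by positivity), div_le_one (by positivity)]
    linarith
  have hW : (1 - W a - 3 / μ) * E a I = 3 * E a (fun k => I k * (1 / ((k : ℝ) + 3) - 1 / μ)) := by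
    have h1 : E a (fun k => I k * ((k : ℝ) / ((k : ℝ) + 3))) =
        E a I - 3 * E a (fun k => I k * (1 / ((k : ℝ) + 3))) := by
      rw [← E_const_mul, ← hA.E_sub PB.I ((PB.const 3).mul (PB.I.mul hinv))]
      congr 1
      funext k
      have h0 : (0 : ℝ) ≤ k := Nat.cast_nonneg k
      field_simp
      ring
    have h2 : E a (fun k => I k * (1 / ((k : ℝ) + 3) - 1 / μ)) =
        E a (fun k => I k * (1 / ((k : ℝ) + 3))) - 1 / μ * E a I := by
      rw [← E_const_mul, ← hA.E_sub (PB.I.mul hinv) ((PB.const (1 / μ)).mul PB.I)]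
      congr 1
      funext k
      ring
    have h3 : W a * E a I = E a (fun k => I k * ((k : ℝ) / ((k : ℝ) + 3))) := by
      unfold W
      exact div_mul_cancel₀ _ hEI0.ne'
    rw [h2]
    have h4 : (1 - W a - 3 / μ) * E a I = E a I - W a * E a I - 3 / μ * E a I := by ring
    rw [h4, h3, h1]
    ring
  -- the pointwise bound
  have hpt : ∀ k : ℕ, |I k * (1 / ((k : ℝ) + 3) - 1 / μ)| ≤
      9 * I0 / μ ^ 2 * (|(k : ℝ) - μ| + 3) + 114 * D * I0 / μ ^ 6 * ((k : ℝ) - μ) ^ 8 := by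
    intro k
    have hk : (0 : ℝ) ≤ k := Nat.cast_nonneg k
    have hI := I_pos k
    have e1 : 1 / ((k : ℝ) + 3) - 1 / μ = -(((k : ℝ) - μ + 3) / (((k : ℝ) + 3) * μ)) := by
      field_simp
      ring
    have e2 : |I k * (1 / ((k : ℝ) + 3) - 1 / μ)| = I k * (|(k : ℝ) - μ + 3| / (((k : ℝ) + 3) * μ)) := by
      rw [e1, abs_mul, abs_of_pos hI, abs_neg, abs_div, abs_of_pos (by positivity : 0 < ((k : ℝ) + 3) * μ)]
    rw [e2]
    have h3 : |(k : ℝ) - μ + 3| ≤ |(k : ℝ) - μ| + 3 := by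
      refine (abs_add_le _ _).trans ?_
      rw [abs_of_pos (by norm_num : (0 : ℝ) < 3)]
    have hp1 : 0 ≤ 9 * I0 / μ ^ 2 * (|(k : ℝ) - μ| + 3) := by positivity
    have hp2 : 0 ≤ 114 * D * I0 / μ ^ 6 * ((k : ℝ) - μ) ^ 8 := by positivity
    rcases le_or_gt (μ / 2) k with h | h
    · have h1 : I k ≤ 9 / 2 * I0 := by
        have := (hbig k (by linarith)).1
        rwa [div_le_iff₀ hI0] at this
      have h2 : |(k : ℝ) - μ + 3| / (((k : ℝ) + 3) * μ) ≤ (|(k : ℝ) - μ| + 3) / (μ / 2 * μ) := by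
        refine div_le_div₀ (by positivity) h3 (by positivity) ?_
        exact mul_le_mul_of_nonneg_right (by linarith) hμ0.le
      have h4 : I k * (|(k : ℝ) - μ + 3| / (((k : ℝ) + 3) * μ)) ≤
          9 / 2 * I0 * ((|(k : ℝ) - μ| + 3) / (μ / 2 * μ)) :=
        mul_le_mul h1 h2 (by positivity) (by positivity)
      have h5 : 9 / 2 * I0 * ((|(k : ℝ) - μ| + 3) / (μ / 2 * μ)) = 9 * I0 / μ ^ 2 * (|(k : ℝ) - μ| + 3) := by
        field_simp
      linarith
    · have h1 : I k ≤ D * ν ^ 2 * I0 := by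
        have := hall k
        rwa [div_le_iff₀ hI0] at this
      have h2 : |(k : ℝ) - μ + 3| / (((k : ℝ) + 3) * μ) ≤ 1 := by
        rw [div_le_one (by positivity)]
        have h21 : |(k : ℝ) - μ| ≤ μ := by rw [abs_le]; constructor <;> linarith
        nlinarith
      have h4 : I k * (|(k : ℝ) - μ + 3| / (((k : ℝ) + 3) * μ)) ≤ D * ν ^ 2 * I0 * 1 :=
        mul_le_mul h1 h2 (by positivity) (by positivity)
      have h5 : (μ / 2) ^ 8 ≤ (μ - k) ^ 8 := pow_le_pow_left₀ (by positivity) (by linarith) 8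
      have h6 : ((k : ℝ) - μ) ^ 8 = (μ - k) ^ 8 := by ring
      rw [← h6] at h5
      have h7 : 114 * D * I0 / μ ^ 6 * (μ / 2) ^ 8 ≤ 114 * D * I0 / μ ^ 6 * ((k : ℝ) - μ) ^ 8 :=
        mul_le_mul_of_nonneg_left h5 (by positivity)
      have h8 : 114 * D * I0 / μ ^ 6 * (μ / 2) ^ 8 = 114 / 256 * (D * I0 * μ ^ 2) := by
        field_simp
        norm_num
      have h9 : D * ν ^ 2 * I0 * 1 = 4 / 9 * (D * I0 * μ ^ 2) := by rw [hν]; ring
      have h10 : 0 ≤ D * I0 * μ ^ 2 := by positivity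
      linarith
  have hPBI : PB (fun k => I k * (1 / ((k : ℝ) + 3) - 1 / μ)) := PB.I.mul (hinv.sub (PB.const _))
  have hE1 : |E a (fun k => I k * (1 / ((k : ℝ) + 3) - 1 / μ))| ≤
      9 * I0 / μ ^ 2 * (√μ + 3) + 114 * D * I0 / μ ^ 6 * (|C8| * μ ^ 4) := by
    refine (hA.abs_E_le hPBI).trans ?_
    refine (hA.E_mono hPBI.abs (((PB.const _).mul (hx.abs.add (PB.const 3))).add
      ((PB.const _).mul (hx.pow 8))) hpt).trans ?_
    rw [hA.E_add ((PB.const _).mul (hx.abs.add (PB.const 3))) ((PB.const _).mul (hx.pow 8)),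
      E_const_mul, E_const_mul, hA.E_add hx.abs (PB.const 3), hA.toLaw.E_const]
    have h1 : E a (fun k => |(k : ℝ) - μ|) ≤ √μ := by
      have := E_abs_le hA
      rw [← hμ] at this
      exact this.trans (Real.sqrt_le_sqrt hvr)
    have h2 : E a (fun k => ((k : ℝ) - μ) ^ 8) ≤ |C8| * μ ^ 4 := by
      have h3 : E a (fun k => ((k : ℝ) - μ) ^ 8) = m8 a := by rw [hμ]; rfl
      rw [h3]
      refine ha.m8_le.trans ?_
      rw [← hμ]
      exact mul_le_mul_of_nonneg_right (le_abs_self _) (by positivity)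
    refine add_le_add ?_ ?_
    · exact mul_le_mul_of_nonneg_left (by linarith) (by positivity)
    · exact mul_le_mul_of_nonneg_left h2 (by positivity)
  -- conclusion
  obtain ⟨s, hs⟩ : ∃ s, s = √μ := ⟨_, rfl⟩
  have hs1 : 1 ≤ s := by rw [hs]; exact Real.one_le_sqrt.2 (by linarith)
  have hs0 : 0 < s := by linarith
  have hss : s * s = μ := by rw [hs]; exact Real.mul_self_sqrt hμ0.le
  rw [← hs] at hE1 ⊢
  have hE2 : |E a (fun k => I k * (1 / ((k : ℝ) + 3) - 1 / μ))| ≤ I0 * (36 + 114 * D * |C8|) / (μ * s) := by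
    refine hE1.trans ?_
    have h1 : 9 * I0 / μ ^ 2 * (s + 3) ≤ 36 * I0 / (μ * s) := by
      have h2 : 9 * I0 / μ ^ 2 * (s + 3) ≤ 9 * I0 / μ ^ 2 * (4 * s) :=
        mul_le_mul_of_nonneg_left (by linarith) (by positivity)
      have h3 : 9 * I0 / μ ^ 2 * (4 * s) = 36 * I0 / (μ * s) := by
        rw [← hss]
        field_simp
        ring
      linarith
    have h4 : 114 * D * I0 / μ ^ 6 * (|C8| * μ ^ 4) = 114 * D * |C8| * I0 / μ ^ 2 := by
      field_simp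
    have h5 : 114 * D * |C8| * I0 / μ ^ 2 ≤ 114 * D * |C8| * I0 / (μ * s) := by
      refine div_le_div_of_nonneg_left (by positivity) (by positivity) ?_
      rw [sq]
      refine mul_le_mul_of_nonneg_left ?_ hμ0.le
      nlinarith
    have h6 : I0 * (36 + 114 * D * |C8|) / (μ * s) = 36 * I0 / (μ * s) + 114 * D * |C8| * I0 / (μ * s) := by
      ring
    rw [h4, h6]
    exact add_le_add h1 h5
  have hfin : |1 - W a - 3 / μ| * (I0 / 4) ≤ 3 * (I0 * (36 + 114 * D * |C8|) / (μ * s)) := by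
    have h1 : |1 - W a - 3 / μ| * (I0 / 4) ≤ |1 - W a - 3 / μ| * E a I :=
      mul_le_mul_of_nonneg_left hEI (abs_nonneg _)
    have h2 : |1 - W a - 3 / μ| * E a I = |3 * E a (fun k => I k * (1 / ((k : ℝ) + 3) - 1 / μ))| := by
      rw [← hW, abs_mul, abs_of_pos hEI0]
    have h3 : |3 * E a (fun k => I k * (1 / ((k : ℝ) + 3) - 1 / μ))| ≤
        3 * (I0 * (36 + 114 * D * |C8|) / (μ * s)) := by
      rw [abs_mul, abs_of_pos (by norm_num : (0 : ℝ) < 3)]
      exact mul_le_mul_of_nonneg_left hE2 (by norm_num)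
    linarith
  have h1 : 3 * (I0 * (36 + 114 * D * |C8|) / (μ * s)) = 12 * (36 + 114 * D * |C8|) / (μ * s) * (I0 / 4) := by
    ring
  rw [h1] at hfin
  exact le_of_mul_le_mul_right hfin (by positivity)

end Pool.Agent.Q224.MK
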