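import Pool.Agent.Q291.MK.Stm6
import Pool.Agent.Q280.MK.GAP

/-!
# Job BLK of project MK: integration over the interior links of a block
-/

namespace Pool.Agent.Q224.MK

open Filter Topology MeasureTheory Quaternion Pool.Agent.Q291.MK Pool.Agent.Q280.MK

theorem haar_right : haar.IsMulRightInvariant := by
  refine ⟨fun g => ?_⟩
  have h1 : IsProbabilityMeasure (Measure.map (fun x : G => x * g) haar) :=
    Measure.isProbabilityMeasure_map (measurable_mul_const g).aemeasurable
  exact Measure.isHaarMeasure_eq_of_isProbabilityMeasure _ _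

theorem haar_inv : haar.IsInvInvariant := by
  have h0 := haar_right
  refine ⟨?_⟩
  have h1 : IsProbabilityMeasure (haar.inv) :=
    Measure.isProbabilityMeasure_map measurable_inv.aemeasurable
  have h2 : haar.inv.IsHaarMeasure := { }
  exact Measure.isHaarMeasure_eq_of_isProbabilityMeasure _ _

theorem int_inv (h : G → ℝ) : ∫ y, h y⁻¹ ∂haar = ∫ y, h y ∂haar := by
  have h1 := haar_inv
  exact integral_inv_eq_self h haar

theorem int_left (h : G → ℝ) (c : G) : ∫ y, h (c * y) ∂haar = ∫ y, h y ∂haar :=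
  integral_mul_left_eq_self h c

theorem int_left_inv (h : G → ℝ) (c : G) : ∫ y, h (c * y⁻¹) ∂haar = ∫ y, h y ∂haar := by
  rw [int_inv fun y => h (c * y), int_left]

theorem int_right (h : G → ℝ) (c : G) : ∫ y, h (y * c) ∂haar = ∫ y, h y ∂haar := by
  rw [← int_inv fun y => h (y * c), ← int_inv h]
  have h1 := int_left (fun y => h y⁻¹) c⁻¹
  rw [← h1]
  congr 1
  funext y
  simp only [mul_inv_rev, inv_inv]

/-- the elementary substitution -/
theorem link_int (f g : G → ℝ) (p q : G) : ∫ v, f (p * v⁻¹) * g (v * q) ∂haar = conv f g (p * q) := by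
  unfold conv
  rw [← int_left_inv (fun y => f y * g (y⁻¹ * (p * q))) p]
  congr 1
  funext v
  simp only [mul_inv_rev, inv_inv]
  congr 2
  group

/-- associativity -/
theorem conv_assoc {f g h : G → ℝ} (hf : Continuous f) (hg : Continuous g) (hh : Continuous h) (x : G) :
    conv f (conv g h) x = conv (conv f g) h x := by
  have e1 : conv (conv f g) h x = ∫ y, ∫ z, f z * g (z⁻¹ * y) * h (y⁻¹ * x) ∂haar ∂haar := by
    unfold conv
    congr 1
    funext y
    rw [← integral_mul_const]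
  rw [e1, integral_integral_swap_of_hasCompactSupport]
  · unfold conv
    congr 1
    funext z
    rw [← integral_const_mul]
    rw [← int_left (fun y => f z * g (z⁻¹ * y) * h (y⁻¹ * x)) z]
    congr 1
    funext y
    have h1 : z⁻¹ * (z * y) = y := by group
    have h2 : (z * y)⁻¹ * x = y⁻¹ * (z⁻¹ * x) := by group
    simp only [h1, h2]
    ring
  · exact ((hf.comp continuous_snd).mul (hg.comp ((continuous_inv.comp continuous_snd).mul
      continuous_fst))).mul (hh.comp ((continuous_inv.comp continuous_fst).mul continuous_const))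
  · exact HasCompactSupport.of_compactSpace _

/-- convolution preserves class functions -/
theorem conv_class {f g : G → ℝ} (hf : ∀ v z, f (v * z * v⁻¹) = f z) (hg : ∀ v z, g (v * z * v⁻¹) = g z)
    (v z : G) : conv f g (v * z * v⁻¹) = conv f g z := by
  unfold conv
  rw [← int_right (fun y => f y * g (y⁻¹ * (v * z * v⁻¹))) v⁻¹,
    ← int_left (fun y => f (y * v⁻¹) * g ((y * v⁻¹)⁻¹ * (v * z * v⁻¹))) v]
  congr 1
  funext y
  have h1 : (v * y * v⁻¹)⁻¹ * (v * z * v⁻¹) = v * (y⁻¹ * z) * v⁻¹ := by group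
  simp only [h1, hf, hg]

theorem t_BLK : P_BLK := by
  intro f hf hc a1 a2 a3 a4
  have hcl : ∀ v z, f (v * z * v⁻¹) = f z := by
    intro v z
    rw [mul_assoc, hc, mul_assoc, inv_mul_cancel, mul_one]
  have hg : Continuous (conv f f) := conv_cont hf hf
  have hk : Continuous (conv f (conv f f)) := conv_cont hf hg
  have s4 : ∀ v1 v2 v3 : G, ∫ v4, f (v1 * a1 * v2⁻¹) * f (v2 * a2 * v3⁻¹) * f (v3 * a3 * v4⁻¹) *
      f (v4 * a4 * v1⁻¹) ∂haar = f (v1 * a1 * v2⁻¹) * (f (v2 * a2 * v3⁻¹) * conv f f (v3 * (a3 * a4 * v1⁻¹))) := by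
    intro v1 v2 v3
    have h := link_int f f (v3 * a3) (a4 * v1⁻¹)
    have e : v3 * (a3 * a4 * v1⁻¹) = v3 * a3 * (a4 * v1⁻¹) := by group
    rw [e, ← h, ← integral_const_mul, ← integral_const_mul]
    congr 1
    funext v4
    rw [mul_assoc v4 a4 v1⁻¹]
    ring
  have s3 : ∀ v1 v2 : G, ∫ v3, f (v1 * a1 * v2⁻¹) * (f (v2 * a2 * v3⁻¹) * conv f f (v3 * (a3 * a4 * v1⁻¹))) ∂haar =
      f (v1 * a1 * v2⁻¹) * conv f (conv f f) (v2 * (a2 * a3 * a4 * v1⁻¹)) := by
    intro v1 v2
    have h := link_int f (conv f f) (v2 * a2) (a3 * a4 * v1⁻¹)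
    have e : v2 * (a2 * a3 * a4 * v1⁻¹) = v2 * a2 * (a3 * a4 * v1⁻¹) := by group
    rw [e, ← h, ← integral_const_mul]
  have s2 : ∀ v1 : G, ∫ v2, f (v1 * a1 * v2⁻¹) * conv f (conv f f) (v2 * (a2 * a3 * a4 * v1⁻¹)) ∂haar =
      conv f (conv f (conv f f)) (a1 * a2 * a3 * a4) := by
    intro v1
    rw [link_int]
    have e : v1 * a1 * (a2 * a3 * a4 * v1⁻¹) = v1 * (a1 * a2 * a3 * a4) * v1⁻¹ := by group
    rw [e]
    exact conv_class hcl (conv_class hcl (conv_class hcl hcl)) v1 _
  simp only [s4, s3, s2]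
  rw [integral_const, probReal_univ, one_smul]
  exact conv_assoc hf hf hg _

end Pool.Agent.Q224.MK
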